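import Pool.Agent.H561R2.NP.Decomp

/-!
# Distances to large product sets
-/

namespace Pool.Agent.H561R2.NP

open Finset

/-- Lipschitz functions on the cube are concentrated. -/
theorem mgf (lam : ℝ) : ∀ (N : ℕ) (F : (Fin N → Bool) → ℝ),
    (∀ x y, F x ≤ F y + ((univ.filter fun i => x i ≠ y i).card : ℝ)) →
    ∑ x, Real.exp (-lam * F x) ≤
      2 ^ N * Real.exp (lam ^ 2 * N / 8 - lam * ((∑ x, F x) / 2 ^ N)) := by
  intro N
  induction N with
  | zero =>
    intro F _
    simp
  | succ N ih =>
    intro F hF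
    have key : ∀ G : (Fin (N + 1) → Bool) → ℝ, ∑ x, G x =
        ∑ x : Fin N → Bool, G (Fin.cons true x) + ∑ x : Fin N → Bool, G (Fin.cons false x) := by
      intro G
      rw [← (Fin.consEquiv fun _ : Fin (N + 1) => Bool).sum_comp, Fintype.sum_prod_type,
        Fintype.sum_bool]
      rfl
    have hlip : ∀ b, ∀ x y : Fin N → Bool, F (Fin.cons b x) ≤ F (Fin.cons b y) +
        ((univ.filter fun i => x i ≠ y i).card : ℝ) := by
      intro b x y
      refine (hF _ _).trans (add_le_add_right ?_ _)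
      have : (univ.filter fun i : Fin (N + 1) =>
          (Fin.cons b x : Fin (N + 1) → Bool) i ≠ (Fin.cons b y : Fin (N + 1) → Bool) i) ⊆
          (univ.filter fun i => x i ≠ y i).map (Fin.succEmb N) := by
        intro i hi
        rw [Finset.mem_filter] at hi
        rw [Finset.mem_map]
        revert hi
        refine Fin.cases ?_ (fun j => ?_) i
        · intro hi
          exact (hi.2 rfl).elim
        · intro hi
          refine ⟨j, Finset.mem_filter.2 ⟨Finset.mem_univ _, ?_⟩, rfl⟩
          simpa using hi.2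
      have h2 := Finset.card_le_card this
      rw [Finset.card_map] at h2
      exact_mod_cast h2
    have hcross : ∀ b c, ∀ x : Fin N → Bool, F (Fin.cons b x) ≤ F (Fin.cons c x) + 1 := by
      intro b c x
      refine (hF _ _).trans (add_le_add_right ?_ _)
      have : (univ.filter fun i : Fin (N + 1) =>
          (Fin.cons b x : Fin (N + 1) → Bool) i ≠ (Fin.cons c x : Fin (N + 1) → Bool) i) ⊆
          {0} := by
        intro i hi
        rw [Finset.mem_filter] at hi
        rw [Finset.mem_singleton]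
        revert hi
        refine Fin.cases ?_ (fun j => ?_) i
        · intro _
          rfl
        · intro hi
          simp at hi
      have h2 := Finset.card_le_card this
      rw [Finset.card_singleton] at h2
      exact_mod_cast h2
    rw [key, key]
    have h1 := ih (fun x => F (Fin.cons true x)) (hlip true)
    have h0 := ih (fun x => F (Fin.cons false x)) (hlip false)
    obtain ⟨a, ha⟩ : ∃ a, a = (∑ x : Fin N → Bool, F (Fin.cons true x)) / 2 ^ N := ⟨_, rfl⟩
    obtain ⟨b, hb⟩ : ∃ b, b = (∑ x : Fin N → Bool, F (Fin.cons false x)) / 2 ^ N := ⟨_, rfl⟩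
    have h2N : (0 : ℝ) < 2 ^ N := by positivity
    have hab : ∀ c d, (∑ x : Fin N → Bool, F (Fin.cons c x)) / 2 ^ N ≤
        (∑ x : Fin N → Bool, F (Fin.cons d x)) / 2 ^ N + 1 := by
      intro c d
      rw [div_add_one h2N.ne', div_le_div_iff_of_pos_right h2N]
      calc ∑ x : Fin N → Bool, F (Fin.cons c x) ≤ ∑ x : Fin N → Bool, (F (Fin.cons d x) + 1) :=
            Finset.sum_le_sum fun x _ => hcross c d x
        _ = ∑ x : Fin N → Bool, F (Fin.cons d x) + 2 ^ N := by
            rw [Finset.sum_add_distrib]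
            simp
    have hab1 := hab true false
    have hab2 := hab false true
    rw [← ha, ← hb] at hab1 hab2
    rw [← ha] at h1
    rw [← hb] at h0
    have hsum : (∑ x : Fin N → Bool, F (Fin.cons true x) +
        ∑ x : Fin N → Bool, F (Fin.cons false x)) / 2 ^ (N + 1) = (a + b) / 2 := by
      rw [ha, hb, pow_succ]
      field_simp
    rw [hsum]
    refine (add_le_add h1 h0).trans ?_
    have hcosh := Real.cosh_le_exp_half_sq (lam * (a - b) / 2)
    rw [Real.cosh_eq] at hcosh
    have hsq : (lam * (a - b) / 2) ^ 2 / 2 ≤ lam ^ 2 / 8 := by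
      have h3 : (a - b) ^ 2 ≤ 1 := by nlinarith
      have h4 : 0 ≤ lam ^ 2 := sq_nonneg _
      nlinarith
    have hexp : Real.exp ((lam * (a - b) / 2) ^ 2 / 2) ≤ Real.exp (lam ^ 2 / 8) :=
      Real.exp_le_exp.2 hsq
    have e1 : Real.exp (lam ^ 2 * N / 8 - lam * a) =
        Real.exp (lam ^ 2 * N / 8 - lam * ((a + b) / 2)) * Real.exp (-(lam * (a - b) / 2)) := by
      rw [← Real.exp_add]
      congr 1
      ring
    have e0 : Real.exp (lam ^ 2 * N / 8 - lam * b) =
        Real.exp (lam ^ 2 * N / 8 - lam * ((a + b) / 2)) * Real.exp (lam * (a - b) / 2) := by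
      rw [← Real.exp_add]
      congr 1
      ring
    have e2 : Real.exp (lam ^ 2 * ((N + 1 : ℕ) : ℝ) / 8 - lam * ((a + b) / 2)) =
        Real.exp (lam ^ 2 * N / 8 - lam * ((a + b) / 2)) * Real.exp (lam ^ 2 / 8) := by
      rw [← Real.exp_add]
      congr 1
      push_cast
      ring
    rw [e1, e0, e2, pow_succ]
    have hpos : 0 < Real.exp (lam ^ 2 * N / 8 - lam * ((a + b) / 2)) := Real.exp_pos _
    have h5 : Real.exp (lam * (a - b) / 2) + Real.exp (-(lam * (a - b) / 2)) ≤
        2 * Real.exp (lam ^ 2 / 8) := by linarith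
    calc 2 ^ N * (Real.exp (lam ^ 2 * N / 8 - lam * ((a + b) / 2)) *
          Real.exp (-(lam * (a - b) / 2))) +
          2 ^ N * (Real.exp (lam ^ 2 * N / 8 - lam * ((a + b) / 2)) *
          Real.exp (lam * (a - b) / 2)) =
          2 ^ N * Real.exp (lam ^ 2 * N / 8 - lam * ((a + b) / 2)) *
          (Real.exp (lam * (a - b) / 2) + Real.exp (-(lam * (a - b) / 2))) := by ring
      _ ≤ 2 ^ N * Real.exp (lam ^ 2 * N / 8 - lam * ((a + b) / 2)) *
          (2 * Real.exp (lam ^ 2 / 8)) := mul_le_mul_of_nonneg_left h5 (by positivity)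
      _ = _ := by ring_nf

variable {Λ : Type} [DecidableEq Λ] [Fintype Λ]

/-- The average distance from a large set. -/
theorem mean_le (F : (Λ → Bool) → ℝ)
    (hF : ∀ x y, F x ≤ F y + ((univ.filter fun v => x v ≠ y v).card : ℝ))
    (R : Finset (Λ → Bool)) (hR : ∀ x ∈ R, F x = 0) {Δ lam : ℝ} (hlam : 0 < lam)
    (hΔ : 2 ^ Fintype.card Λ ≤ R.card * Real.exp Δ) :
    ∑ x, F x ≤ 2 ^ Fintype.card Λ * (lam * Fintype.card Λ / 8 + Δ / lam) := by
  obtain ⟨N, hN⟩ : ∃ N, N = Fintype.card Λ := ⟨_, rfl⟩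
  have e : Λ ≃ Fin N := Fintype.equivFinOfCardEq hN.symm
  rw [← hN] at hΔ ⊢
  have hs : ∀ G : (Λ → Bool) → ℝ, ∑ x : Fin N → Bool, G (fun v => x (e v)) = ∑ x, G x := by
    intro G
    exact (Equiv.arrowCongr e.symm (Equiv.refl Bool)).sum_comp G
  have h1 := mgf lam N (fun x => F fun v => x (e v)) (by
    intro x y
    refine (hF _ _).trans (add_le_add_right ?_ _)
    have : (univ.filter fun v => x (e v) ≠ y (e v)).map e.toEmbedding ⊆
        univ.filter fun i => x i ≠ y i := by
      intro i hi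
      rw [Finset.mem_map] at hi
      obtain ⟨v, hv, rfl⟩ := hi
      rw [Finset.mem_filter] at hv ⊢
      exact ⟨Finset.mem_univ _, hv.2⟩
    have h2 := Finset.card_le_card this
    rw [Finset.card_map] at h2
    exact_mod_cast h2)
  rw [hs F, hs fun x => Real.exp (-lam * F x)] at h1
  have h2 : (R.card : ℝ) ≤ ∑ x, Real.exp (-lam * F x) := by
    calc (R.card : ℝ) = ∑ x ∈ R, Real.exp (-lam * F x) := by
          rw [Finset.sum_congr rfl fun x hx => by rw [hR x hx, mul_zero, Real.exp_zero]]
          simp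
      _ ≤ ∑ x, Real.exp (-lam * F x) :=
          Finset.sum_le_sum_of_subset_of_nonneg (Finset.subset_univ _)
            fun _ _ _ => (Real.exp_pos _).le
  obtain ⟨a, ha⟩ : ∃ a, a = (∑ x, F x) / 2 ^ N := ⟨_, rfl⟩
  rw [← ha] at h1
  have h3 : (2 : ℝ) ^ N ≤ 2 ^ N * Real.exp (lam ^ 2 * N / 8 - lam * a + Δ) := by
    calc (2 : ℝ) ^ N ≤ R.card * Real.exp Δ := hΔ
      _ ≤ (2 ^ N * Real.exp (lam ^ 2 * N / 8 - lam * a)) * Real.exp Δ :=
          mul_le_mul_of_nonneg_right (h2.trans h1) (Real.exp_pos _).le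
      _ = _ := by rw [mul_assoc, ← Real.exp_add]
  have h4 : 1 ≤ Real.exp (lam ^ 2 * N / 8 - lam * a + Δ) := by
    have : (0 : ℝ) < 2 ^ N := by positivity
    nlinarith
  have h4' : 0 ≤ lam ^ 2 * N / 8 - lam * a + Δ := by
    by_contra h
    push Not at h
    have h7 := Real.exp_lt_exp.2 h
    rw [Real.exp_zero] at h7
    exact absurd h7 (not_lt.2 h4)
  have h5 : a ≤ lam * N / 8 + Δ / lam := by
    have h6 : lam * a ≤ lam * (lam * N / 8 + Δ / lam) := by
      have : lam * (lam * N / 8 + Δ / lam) = lam ^ 2 * N / 8 + Δ := by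
        rw [mul_add, mul_div_cancel₀ _ hlam.ne']
        ring
      linarith
    exact le_of_mul_le_mul_left h6 hlam
  have h7 : ∑ x, F x = 2 ^ N * a := by
    rw [ha]
    field_simp
  rw [h7]
  exact mul_le_mul_of_nonneg_left h5 (by positivity)

open Classical in
/-- The distance on `B` from `x` to the strings which satisfy `P`. -/
noncomputable def dst (P : (Λ → Bool) → Prop) (B : Finset Λ) (x : Λ → Bool) : ℕ :=
  sInf {k | ∃ y, P y ∧ (B.filter fun v => x v ≠ y v).card = k}

omit [DecidableEq Λ] [Fintype Λ] in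
theorem dst_le {P : (Λ → Bool) → Prop} {B : Finset Λ} {x y : Λ → Bool} (hy : P y) :
    dst P B x ≤ (B.filter fun v => x v ≠ y v).card :=
  Nat.sInf_le ⟨y, hy, by congr⟩

omit [DecidableEq Λ] [Fintype Λ] in
theorem exists_dst {P : (Λ → Bool) → Prop} (B : Finset Λ) (x : Λ → Bool) (hP : ∃ y, P y) :
    ∃ y, P y ∧ (B.filter fun v => x v ≠ y v).card = dst P B x := by
  obtain ⟨y, hy⟩ := hP
  have := Nat.sInf_mem (s := {k | ∃ y, P y ∧ (B.filter fun v => x v ≠ y v).card = k})
    ⟨_, y, hy, rfl⟩
  obtain ⟨z, hz1, hz2⟩ := this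
  refine ⟨z, hz1, ?_⟩
  rw [hz2]
  unfold dst
  congr

omit [Fintype Λ] in
theorem dst_tri {P : (Λ → Bool) → Prop} (B : Finset Λ) (x x' : Λ → Bool) (hP : ∃ y, P y) :
    dst P B x ≤ dst P B x' + (B.filter fun v => x v ≠ x' v).card := by
  obtain ⟨y, hy, h⟩ := exists_dst B x' hP
  refine (dst_le hy).trans ?_
  rw [← h, ← Nat.add_comm]
  refine le_trans (Finset.card_le_card ?_) (Finset.card_union_le _ _)
  intro v hv
  rw [Finset.mem_filter] at hv
  rw [Finset.mem_union, Finset.mem_filter, Finset.mem_filter]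
  by_cases hc : x v = x' v
  · right
    exact ⟨hv.1, hc ▸ hv.2⟩
  · left
    exact ⟨hv.1, hc⟩

omit [Fintype Λ] in
/-- Disjoint sets. -/
theorem sum_card_le (q : Λ → Prop) [DecidablePred q] :
    ∀ (L : List (((Λ → Bool) → Prop) × Finset Λ)),
    L.Pairwise (fun p q => Disjoint p.2 q.2) → ∀ V : Finset Λ, (∀ p ∈ L, p.2 ⊆ V) →
    (L.map fun p => (p.2.filter q).card).sum ≤ (V.filter q).card := by
  intro L
  induction L with
  | nil => intro _ V _; simp
  | cons p L ih =>
    intro hL V hV
    rw [List.pairwise_cons] at hL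
    rw [List.map_cons, List.sum_cons]
    have h1 := ih hL.2 (V \ p.2) (fun p' hp' => by
      intro v hv
      rw [Finset.mem_sdiff]
      exact ⟨hV p' (List.mem_cons_of_mem _ hp') hv,
        fun hv' => Finset.disjoint_left.1 (hL.1 p' hp') hv' hv⟩)
    have h2 : (V.filter q).card = ((p.2).filter q).card + ((V \ p.2).filter q).card := by
      rw [← Finset.card_union_of_disjoint]
      · congr 1
        ext v
        simp only [Finset.mem_filter, Finset.mem_union, Finset.mem_sdiff]
        have := @hV p (List.mem_cons_self) v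
        tauto
      · refine Finset.disjoint_left.2 fun v h3 h4 => ?_
        rw [Finset.mem_filter] at h3 h4
        exact (Finset.mem_sdiff.1 h4.1).2 h3.1
    omega

/-- The distance from the product set. -/
noncomputable def D (L : List (((Λ → Bool) → Prop) × Finset Λ)) (x : Λ → Bool) : ℕ :=
  (L.map fun p => dst p.1 p.2 x).sum

theorem D_lip {L : List (((Λ → Bool) → Prop) × Finset Λ)}
    (hL : L.Pairwise (fun p q => Disjoint p.2 q.2)) (hne : ∀ p ∈ L, ∃ y, p.1 y)
    (x x' : Λ → Bool) : D L x ≤ D L x' + (univ.filter fun v => x v ≠ x' v).card := by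
  have h1 : D L x ≤ (L.map fun p => dst p.1 p.2 x' +
      (p.2.filter fun v => x v ≠ x' v).card).sum := by
    unfold D
    refine List.sum_le_sum fun p hp => ?_
    exact dst_tri _ _ _ (hne p hp)
  rw [List.sum_map_add] at h1
  have h2 := sum_card_le (fun v => x v ≠ x' v) L hL univ (fun p _ => Finset.subset_univ _)
  unfold D at h1 ⊢
  omega

/-- There is a point of the product set at this distance. -/
theorem exists_near : ∀ {L : List (((Λ → Bool) → Prop) × Finset Λ)},
    L.Pairwise (fun p q => Disjoint p.2 q.2) → (∀ p ∈ L, Dep p.1 p.2) →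
    (∀ p ∈ L, ∃ y, p.1 y) → ∀ x : Λ → Bool,
    ∃ y, (∀ p ∈ L, p.1 y) ∧ (univ.filter fun v => x v ≠ y v).card ≤ D L x := by
  intro L
  induction L with
  | nil =>
    intro _ _ _ x
    refine ⟨x, by simp, by simp⟩
  | cons p L ih =>
    intro hL hdep hne x
    rw [List.pairwise_cons] at hL
    obtain ⟨y, hy1, hy2⟩ := ih hL.2 (fun p hp => hdep p (List.mem_cons_of_mem _ hp))
      (fun p hp => hne p (List.mem_cons_of_mem _ hp)) x
    obtain ⟨z, hz1, hz2⟩ := exists_dst p.2 x (hne p List.mem_cons_self)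
    refine ⟨fun v => if v ∈ p.2 then z v else y v, ?_, ?_⟩
    · intro q hq
      rcases List.mem_cons.1 hq with rfl | hq
      · refine hdep q List.mem_cons_self z _ (fun v hv => ?_) hz1
        rw [if_pos hv]
      · refine hdep q (List.mem_cons_of_mem _ hq) y _ (fun v hv => ?_) (hy1 q hq)
        rw [if_neg fun h => Finset.disjoint_left.1 (hL.1 q hq) h hv]
    · have e : D (p :: L) x = dst p.1 p.2 x + D L x := by
        unfold D
        rw [List.map_cons, List.sum_cons]
      rw [e, ← hz2]
      refine le_trans (Finset.card_le_card (t := (p.2.filter fun v => x v ≠ z v) ∪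
        univ.filter fun v => x v ≠ y v) ?_) ((Finset.card_union_le _ _).trans
          (Nat.add_le_add_left hy2 _))
      intro v hv
      rw [Finset.mem_filter] at hv
      rw [Finset.mem_union, Finset.mem_filter, Finset.mem_filter]
      by_cases hvp : v ∈ p.2
      · left
        have : x v ≠ (if v ∈ p.2 then z v else y v) := hv.2
        rw [if_pos hvp] at this
        exact ⟨hvp, this⟩
      · right
        have : x v ≠ (if v ∈ p.2 then z v else y v) := hv.2
        rw [if_neg hvp] at this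
        exact ⟨Finset.mem_univ _, this⟩

omit [DecidableEq Λ] [Fintype Λ] in
theorem D_zero {L : List (((Λ → Bool) → Prop) × Finset Λ)} {x : Λ → Bool}
    (hx : ∀ p ∈ L, p.1 x) : D L x = 0 := by
  unfold D
  rw [List.sum_eq_zero_iff]
  intro k hk
  rw [List.mem_map] at hk
  obtain ⟨p, hp, rfl⟩ := hk
  have h := dst_le (B := p.2) (x := x) (hx p hp)
  simpa using h

end Pool.Agent.H561R2.NP
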