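import Pool.Agent.H561R2.NP.Restr

/-!
# Random graphs of functions meet large sets in few points
-/

namespace Pool.Agent.H561R2.NP

open Finset

variable {l g d : ℕ}

/-- The first `l` coordinates. -/
def pre (u : Fin (l + g) → Bool) : Fin l → Bool := fun i => u (Fin.castAdd g i)

/-- The points of the graph of a function of the first `l` coordinates. -/
def emb (T : (Fin l → Bool) → Fin d → Bool) (u : Fin (l + g) → Bool) : Fin (l + g + d) → Bool :=
  Fin.append u (T (pre u))

/-- The number of points of `B` over `c` and `w`. -/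
def cnt (B : Finset (Fin (l + g + d) → Bool)) (c : Fin l → Bool) (w : Fin d → Bool) : ℕ :=
  (univ.filter fun u : Fin (l + g) → Bool => pre u = c ∧ Fin.append u w ∈ B).card

theorem card_pull (T : (Fin l → Bool) → Fin d → Bool) (B : Finset (Fin (l + g + d) → Bool)) :
    (pull (emb T) B).card = ∑ c, cnt B c (T c) := by
  rw [Finset.card_eq_sum_card_fiberwise (f := pre) (t := univ) (fun _ _ => Finset.mem_coe.2
    (Finset.mem_univ _))]
  refine Finset.sum_congr rfl fun c _ => ?_
  unfold cnt pull emb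
  congr 1
  ext u
  simp only [Finset.mem_filter, Finset.mem_univ, true_and]
  constructor
  · rintro ⟨h1, h2⟩
    exact ⟨h2, by rw [← h2]; exact h1⟩
  · rintro ⟨h1, h2⟩
    exact ⟨by rw [h1]; exact h2, h1⟩

theorem cnt_le (B : Finset (Fin (l + g + d) → Bool)) (c : Fin l → Bool) (w : Fin d → Bool) :
    cnt B c w ≤ 2 ^ g := by
  have h1 : Fintype.card (Fin g → Bool) = 2 ^ g := by
    rw [Fintype.card_fun, Fintype.card_bool, Fintype.card_fin]
  rw [← h1, ← Finset.card_univ]
  unfold cnt
  refine Finset.card_le_card_of_injOn (fun u j => u (Fin.natAdd l j))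
    (fun _ _ => Finset.mem_coe.2 (Finset.mem_univ _)) ?_
  intro u hu v hv huv
  rw [Finset.mem_coe, Finset.mem_filter] at hu hv
  have h2 : pre u = pre v := hu.2.1.trans hv.2.1.symm
  funext i
  refine Fin.addCases (fun i => ?_) (fun j => ?_) i
  · exact congrFun h2 i
  · exact congrFun huv j

theorem sum_cnt (B : Finset (Fin (l + g + d) → Bool)) :
    ∑ c : Fin l → Bool, ∑ w : Fin d → Bool, cnt B c w ≤ B.card := by
  rw [Finset.sum_comm]
  have h1 : ∀ w : Fin d → Bool, ∑ c : Fin l → Bool, cnt B c w =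
      (univ.filter fun u : Fin (l + g) → Bool => Fin.append u w ∈ B).card := by
    intro w
    rw [Finset.card_eq_sum_card_fiberwise (f := pre) (t := univ) (fun _ _ => Finset.mem_coe.2
      (Finset.mem_univ _))]
    refine Finset.sum_congr rfl fun c _ => ?_
    unfold cnt
    congr 1
    ext u
    simp only [Finset.mem_filter, Finset.mem_univ, true_and]
    exact and_comm
  simp only [h1]
  have h2 : ∑ w : Fin d → Bool,
      (univ.filter fun u : Fin (l + g) → Bool => Fin.append u w ∈ B).card =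
      ((univ : Finset ((Fin d → Bool) × (Fin (l + g) → Bool))).filter fun p =>
        Fin.append p.2 p.1 ∈ B).card := by
    simp only [Finset.card_filter]
    rw [Fintype.sum_prod_type]
  rw [h2]
  refine Finset.card_le_card_of_injOn (fun p => Fin.append p.2 p.1) ?_ ?_
  · intro p hp
    rw [Finset.mem_coe, Finset.mem_filter] at hp
    exact hp.2
  · intro p _ q _ h
    refine Prod.ext ?_ ?_
    · funext j
      have := congrFun h (Fin.natAdd (l + g) j)
      simpa using this
    · funext i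
      have := congrFun h (Fin.castAdd d i)
      simpa using this

theorem four_rpow_le {y : ℝ} (h0 : 0 ≤ y) (h1 : y ≤ 1) : Real.exp (Real.log 4 * y) ≤ 1 + 3 * y := by
  have h := rpow_one_add_le_one_add_mul_self (s := 3) (by norm_num) h0 h1
  rw [show (1 : ℝ) + 3 = 4 by norm_num, Real.rpow_def_of_pos (by norm_num)] at h
  linarith

theorem chernoff (B : Finset (Fin (l + g + d) → Bool)) (b : ℕ) :
    ((univ.filter fun T : (Fin l → Bool) → Fin d → Bool => b < (pull (emb T) B).card).card : ℝ) *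
      Real.exp (Real.log 4 * (b / 2 ^ g)) ≤
    Fintype.card ((Fin l → Bool) → Fin d → Bool) * Real.exp (3 * B.card / 2 ^ (g + d)) := by
  have hF : ∀ T : (Fin l → Bool) → Fin d → Bool,
      Real.exp (Real.log 4 * ((pull (emb T) B).card / 2 ^ g)) ≤
      ∏ c, (1 + 3 * ((cnt B c (T c) : ℝ) / 2 ^ g)) := by
    intro T
    have e : Real.log 4 * (((pull (emb T) B).card : ℝ) / 2 ^ g) =
        ∑ c, Real.log 4 * ((cnt B c (T c) : ℝ) / 2 ^ g) := by
      rw [card_pull, ← Finset.mul_sum, ← Finset.sum_div]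
      push_cast
      rfl
    rw [e, Real.exp_sum]
    refine Finset.prod_le_prod (fun _ _ => (Real.exp_pos _).le) fun c _ => ?_
    refine four_rpow_le (by positivity) ?_
    rw [div_le_one (by positivity)]
    exact_mod_cast cnt_le B c (T c)
  have hsum : ∑ T : (Fin l → Bool) → Fin d → Bool, ∏ c, (1 + 3 * ((cnt B c (T c) : ℝ) / 2 ^ g)) =
      ∏ c : Fin l → Bool, ∑ w : Fin d → Bool, (1 + 3 * ((cnt B c w : ℝ) / 2 ^ g)) := by
    rw [Finset.prod_univ_sum, Fintype.piFinset_univ]
  have hprod : ∏ c : Fin l → Bool, ∑ w : Fin d → Bool, (1 + 3 * ((cnt B c w : ℝ) / 2 ^ g)) ≤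
      Fintype.card ((Fin l → Bool) → Fin d → Bool) * Real.exp (3 * B.card / 2 ^ (g + d)) := by
    have h1 : ∀ c : Fin l → Bool, ∑ w : Fin d → Bool, (1 + 3 * ((cnt B c w : ℝ) / 2 ^ g)) ≤
        2 ^ d * Real.exp (3 * (∑ w : Fin d → Bool, (cnt B c w : ℝ)) / 2 ^ (g + d)) := by
      intro c
      have h2 := Real.add_one_le_exp (3 * (∑ w : Fin d → Bool, (cnt B c w : ℝ)) / 2 ^ (g + d))
      calc ∑ w : Fin d → Bool, (1 + 3 * ((cnt B c w : ℝ) / 2 ^ g)) =
            2 ^ d * (3 * (∑ w : Fin d → Bool, (cnt B c w : ℝ)) / 2 ^ (g + d) + 1) := by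
            rw [Finset.sum_add_distrib, ← Finset.mul_sum, ← Finset.sum_div, pow_add]
            simp only [Finset.sum_const, Finset.card_univ, Fintype.card_fun, Fintype.card_bool,
              Fintype.card_fin, nsmul_eq_mul, mul_one]
            push_cast
            field_simp
            ring
        _ ≤ _ := mul_le_mul_of_nonneg_left h2 (by positivity)
    calc ∏ c : Fin l → Bool, ∑ w : Fin d → Bool, (1 + 3 * ((cnt B c w : ℝ) / 2 ^ g)) ≤
          ∏ c : Fin l → Bool,
            (2 ^ d * Real.exp (3 * (∑ w : Fin d → Bool, (cnt B c w : ℝ)) / 2 ^ (g + d))) :=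
          Finset.prod_le_prod (fun c _ => by positivity) fun c _ => h1 c
      _ = Fintype.card ((Fin l → Bool) → Fin d → Bool) * Real.exp
            (3 * (∑ c : Fin l → Bool, ∑ w : Fin d → Bool, (cnt B c w : ℝ)) / 2 ^ (g + d)) := by
          rw [Finset.prod_mul_distrib, ← Real.exp_sum, ← Finset.sum_div, ← Finset.mul_sum]
          congr 1
          simp only [Finset.prod_const, Finset.card_univ, Fintype.card_fun, Fintype.card_bool,
            Fintype.card_fin]
          push_cast
          rfl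
      _ ≤ _ := by
          refine mul_le_mul_of_nonneg_left (Real.exp_le_exp.2 ?_) (by positivity)
          have h3 : ∑ c : Fin l → Bool, ∑ w : Fin d → Bool, (cnt B c w : ℝ) ≤ B.card := by
            exact_mod_cast sum_cnt B
          gcongr
  calc ((univ.filter fun T : (Fin l → Bool) → Fin d → Bool =>
          b < (pull (emb T) B).card).card : ℝ) * Real.exp (Real.log 4 * (b / 2 ^ g)) =
        ∑ T ∈ univ.filter (fun T : (Fin l → Bool) → Fin d → Bool =>
          b < (pull (emb T) B).card), Real.exp (Real.log 4 * (b / 2 ^ g)) := by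
        rw [Finset.sum_const, nsmul_eq_mul]
    _ ≤ ∑ T ∈ univ.filter (fun T : (Fin l → Bool) → Fin d → Bool =>
          b < (pull (emb T) B).card), ∏ c, (1 + 3 * ((cnt B c (T c) : ℝ) / 2 ^ g)) := by
        refine Finset.sum_le_sum fun T hT => le_trans (Real.exp_le_exp.2 ?_) (hF T)
        rw [Finset.mem_filter] at hT
        have h4 : (b : ℝ) ≤ (pull (emb T) B).card := by exact_mod_cast hT.2.le
        have h5 : 0 ≤ Real.log 4 := Real.log_nonneg (by norm_num)
        gcongr
    _ ≤ ∑ T : (Fin l → Bool) → Fin d → Bool, ∏ c, (1 + 3 * ((cnt B c (T c) : ℝ) / 2 ^ g)) :=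
        Finset.sum_le_sum_of_subset_of_nonneg (Finset.filter_subset _ _)
          fun T _ _ => Finset.prod_nonneg fun c _ => by positivity
    _ ≤ _ := by
        rw [hsum]
        exact hprod

/-- A graph which meets all the sets in few points. -/
theorem exists_graph {S q : ℕ} (hl : l = 2 * g + 3 + q) (B : Fin S → Finset (Fin (l + g + d) → Bool))
    (hB : ∀ i, (B i).card ≤ 2 ^ (l + g + d - 2 * g - 6)) (hS : S < 2 ^ 2 ^ q) (hq : 3 ≤ g + q + d) :
    ∃ T : (Fin l → Bool) → Fin d → Bool, ∀ i, (pull (emb T) (B i)).card ≤ 2 ^ (l - g - 3) := by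
  by_contra hcon
  push Not at hcon
  obtain ⟨NT, hNT⟩ : ∃ NT, NT = Fintype.card ((Fin l → Bool) → Fin d → Bool) := ⟨_, rfl⟩
  have hpos : (0 : ℝ) < NT := by
    rw [hNT]
    exact_mod_cast Fintype.card_pos
  have hbad : ∀ i, ((univ.filter fun T : (Fin l → Bool) → Fin d → Bool =>
      2 ^ (l - g - 3) < (pull (emb T) (B i)).card).card : ℝ) * 2 ^ 2 ^ q ≤ NT := by
    intro i
    have h := chernoff (B i) (2 ^ (l - g - 3))
    rw [← hNT] at h
    have e1 : (((2 ^ (l - g - 3) : ℕ) : ℝ) / 2 ^ g) = ((2 ^ q : ℕ) : ℝ) := by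
      rw [div_eq_iff (by positivity)]
      push_cast
      rw [← pow_add]
      congr 1
      omega
    have e2 : Real.exp (Real.log 4 * ((2 ^ q : ℕ) : ℝ)) = 4 ^ 2 ^ q := by
      rw [Real.exp_mul, Real.exp_log (by norm_num), Real.rpow_natCast]
    have e3 : 3 * ((B i).card : ℝ) / 2 ^ (g + d) ≤ (2 ^ q : ℕ) * (3 / 8) := by
      rw [div_le_iff₀ (by positivity)]
      have h1 : ((B i).card : ℝ) ≤ 2 ^ (l + g + d - 2 * g - 6) := by exact_mod_cast hB i
      have h2 : (2 : ℝ) ^ (l + g + d - 2 * g - 6) * 8 = 2 ^ q * 2 ^ (g + d) := by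
        rw [show (8 : ℝ) = 2 ^ 3 by norm_num, ← pow_add, ← pow_add]
        congr 1
        omega
      push_cast
      nlinarith
    have e4 : Real.exp ((2 ^ q : ℕ) * (3 / 8)) ≤ 2 ^ 2 ^ q := by
      have h1 : Real.exp (3 / 8) ≤ 2 := by
        have h2 : (3 : ℝ) / 8 ≤ Real.log 2 := by
          have := Real.log_two_gt_d9
          linarith
        calc Real.exp (3 / 8) ≤ Real.exp (Real.log 2) := Real.exp_le_exp.2 h2
          _ = 2 := Real.exp_log (by norm_num)
      rw [Real.exp_nat_mul]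
      exact pow_le_pow_left₀ (Real.exp_pos _).le h1 _
    rw [e1, e2] at h
    have h3 : ((univ.filter fun T : (Fin l → Bool) → Fin d → Bool =>
        2 ^ (l - g - 3) < (pull (emb T) (B i)).card).card : ℝ) * 4 ^ 2 ^ q ≤ NT * 2 ^ 2 ^ q :=
      h.trans (mul_le_mul_of_nonneg_left ((Real.exp_le_exp.2 e3).trans e4) hpos.le)
    have h4 : (4 : ℝ) ^ 2 ^ q = 2 ^ 2 ^ q * 2 ^ 2 ^ q := by
      rw [← mul_pow]
      norm_num
    rw [h4, ← mul_assoc] at h3
    exact le_of_mul_le_mul_right h3 (by positivity)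
  have hcov : (univ : Finset ((Fin l → Bool) → Fin d → Bool)) ⊆ univ.biUnion fun i =>
      univ.filter fun T : (Fin l → Bool) → Fin d → Bool =>
        2 ^ (l - g - 3) < (pull (emb T) (B i)).card := by
    intro T _
    obtain ⟨i, hi⟩ := hcon T
    rw [Finset.mem_biUnion]
    exact ⟨i, Finset.mem_univ _, Finset.mem_filter.2 ⟨Finset.mem_univ _, hi⟩⟩
  have h1 := (Finset.card_le_card hcov).trans Finset.card_biUnion_le
  rw [Finset.card_univ, ← hNT] at h1
  have h2 : (NT : ℝ) ≤ ∑ i, ((univ.filter fun T : (Fin l → Bool) → Fin d → Bool =>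
      2 ^ (l - g - 3) < (pull (emb T) (B i)).card).card : ℝ) := by
    exact_mod_cast h1
  have h3 : (NT : ℝ) * 2 ^ 2 ^ q ≤ S * NT := by
    calc (NT : ℝ) * 2 ^ 2 ^ q ≤ (∑ i, ((univ.filter fun T : (Fin l → Bool) → Fin d → Bool =>
          2 ^ (l - g - 3) < (pull (emb T) (B i)).card).card : ℝ)) * 2 ^ 2 ^ q :=
          mul_le_mul_of_nonneg_right h2 (by positivity)
      _ = ∑ i, ((univ.filter fun T : (Fin l → Bool) → Fin d → Bool =>
          2 ^ (l - g - 3) < (pull (emb T) (B i)).card).card : ℝ) * 2 ^ 2 ^ q := by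
          rw [Finset.sum_mul]
      _ ≤ ∑ _i : Fin S, (NT : ℝ) := Finset.sum_le_sum fun i _ => hbad i
      _ = S * NT := by
          rw [Finset.sum_const, Finset.card_univ, Fintype.card_fin, nsmul_eq_mul]
  have h4 : (S : ℝ) < 2 ^ 2 ^ q := by exact_mod_cast hS
  nlinarith

end Pool.Agent.H561R2.NP
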