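import Pool.Agent.H561R2.NP.Natural
import Pool.Agent.H561R2.NP.Chern

/-!
# Circuits which reject all easy functions
-/

namespace Pool.Agent.H561R2.NP

open Finset Pool.Agent.H561R2.RO

/-- The cost of functions of the first variables. -/
def sub {m d : ℕ} (M : CostM (m + d)) : CostM m where
  cost f s := M.cost (fun z => f fun i => z (Fin.castAdd d i)) s
  mono := fun h hst => M.mono h hst
  const := fun b => M.const b
  var := fun _ => M.var _
  xor := fun hf hg => M.xor hf hg
  ite := fun he hf hg => M.ite he hf hg

theorem cost_eqs {n c : ℕ} (M : CostM n) {d : ℕ} (p q : Fin d → (Fin n → Bool) → Bool)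
    (hp : ∀ j, M.cost (fun z => p j z ^^ q j z) c) : ∀ L : List (Fin d),
    M.cost (fun z => L.all fun j => p j z == q j z) ((2 * c + 4) * L.length + 1) := by
  intro L
  induction L with
  | nil => exact M.mono (M.const true) (by simp)
  | cons j L ih =>
    have e : (fun z : Fin n → Bool => (j :: L).all fun j => p j z == q j z) =
        fun z => if (fun z => p j z ^^ q j z) z then (fun _ => false) z
          else (fun z => L.all fun j => p j z == q j z) z := by
      funext z
      rw [List.all_cons]
      show _ = if (p j z ^^ q j z) = true then false else L.all fun j => p j z == q j z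
      generalize (L.all fun j => p j z == q j z) = w
      generalize p j z = a
      generalize q j z = b
      cases a <;> cases b <;> cases w <;> rfl
    rw [e]
    refine M.mono (M.ite (hp j) (M.const false) ih) ?_
    rw [List.length_cons]
    have : (2 * c + 4) * (L.length + 1) = (2 * c + 4) * L.length + (2 * c + 4) := by ring
    omega

variable {l g d : ℕ}

/-- The partial inverse of the embedding. -/
def kap (T : (Fin l → Bool) → Fin d → Bool) (v : Fin (l + g + d) → Bool) :
    Option (Fin (l + g) → Bool) :=
  if (List.finRange d).all fun j => v (Fin.natAdd (l + g) j) ==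
      T (pre fun i => v (Fin.castAdd d i)) j then
    some fun i => v (Fin.castAdd d i)
  else none

theorem kap_some {T : (Fin l → Bool) → Fin d → Bool} {v : Fin (l + g + d) → Bool}
    {u : Fin (l + g) → Bool} (h : kap T v = some u) : emb T u = v := by
  unfold kap at h
  split_ifs at h with h1
  rw [Option.some.injEq] at h
  subst h
  rw [List.all_eq_true] at h1
  funext i
  unfold emb
  refine Fin.addCases (fun i => ?_) (fun j => ?_) i
  · rw [Fin.append_left]
  · rw [Fin.append_right]
    have := h1 j (List.mem_finRange j)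
    rw [beq_iff_eq] at this
    exact this.symm

theorem kap_emb (T : (Fin l → Bool) → Fin d → Bool) (u : Fin (l + g) → Bool) :
    kap T (emb T u) = some u := by
  have h0 : (fun i => emb T u (Fin.castAdd d i)) = u := by
    funext i
    unfold emb
    rw [Fin.append_left]
  unfold kap
  rw [h0, if_pos]
  rw [List.all_eq_true]
  intro j _
  rw [beq_iff_eq]
  unfold emb
  rw [Fin.append_right]

/-- The cost of the extended function. -/
theorem cost_ext {k : ℕ} (hn : l + g + d ≤ 2 ^ k) (M : CostM (l + g + d))
    (T : (Fin l → Bool) → Fin d → Bool) {f : (Fin (l + g) → Bool) → Bool}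
    (hf : (sub M).cost f (2 ^ (l + 2 * k + 5))) :
    M.cost (ext (kap T) f) (2 ^ (l + 2 * k + 7)) := by
  have hT : ∀ j, M.cost (fun z => T (pre fun i => z (Fin.castAdd d i)) j) (6 * 2 ^ l) := by
    intro j
    have h := M.table (c := 1)
      (fun (i : Fin l) z => z (Fin.castAdd d (Fin.castAdd g i))) (fun i => M.var _) fun c => T c j
    exact M.mono h (by omega)
  have hx : ∀ j, M.cost (fun z => z (Fin.natAdd (l + g) j) ^^
      T (pre fun i => z (Fin.castAdd d i)) j) (12 * 2 ^ l + 5) := by
    intro j
    exact M.mono (M.xor (M.var _) (hT j)) (by omega)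
  have he := cost_eqs M (fun j z => z (Fin.natAdd (l + g) j))
    (fun j z => T (pre fun i => z (Fin.castAdd d i)) j) hx (List.finRange d)
  have e : ext (kap T) f = fun z => if (fun z : Fin (l + g + d) → Bool =>
      (List.finRange d).all fun j => z (Fin.natAdd (l + g) j) ==
        T (pre fun i => z (Fin.castAdd d i)) j) z
      then (fun z => f fun i => z (Fin.castAdd d i)) z else (fun _ => false) z := by
    funext z
    unfold ext kap
    by_cases h : ((List.finRange d).all fun j => z (Fin.natAdd (l + g) j) ==
        T (pre fun i => z (Fin.castAdd d i)) j) = true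
    · simp only [if_pos h]
    · simp only [if_neg h]
  rw [e]
  refine M.mono (M.ite he hf (M.const false)) ?_
  rw [List.length_finRange]
  have h1 : 1 ≤ 2 ^ l := Nat.one_le_two_pow
  have h2 : 1 ≤ 2 ^ k := Nat.one_le_two_pow
  have h3 : 2 ^ (l + 2 * k + 5) = 32 * (2 ^ k * 2 ^ k * 2 ^ l) := by
    rw [show (32 : ℕ) = 2 ^ 5 by norm_num, ← pow_add, ← pow_add, ← pow_add]
    congr 1
    ring
  have h4 : 2 ^ (l + 2 * k + 7) = 128 * (2 ^ k * 2 ^ k * 2 ^ l) := by
    rw [show (128 : ℕ) = 2 ^ 7 by norm_num, ← pow_add, ← pow_add, ← pow_add]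
    congr 1
    ring
  have h5 : (2 * (12 * 2 ^ l + 5) + 4) * d ≤ 38 * (2 ^ k * 2 ^ k * 2 ^ l) := by
    calc (2 * (12 * 2 ^ l + 5) + 4) * d ≤ (38 * 2 ^ l) * (2 ^ k * 2 ^ k) := by
          refine Nat.mul_le_mul (by omega) ?_
          calc d ≤ 2 ^ k := by omega
            _ ≤ 2 ^ k * 2 ^ k := Nat.le_mul_of_pos_right _ h2
      _ = _ := by ring
  have h6 : 1 ≤ 2 ^ k * 2 ^ k * 2 ^ l := Nat.one_le_iff_ne_zero.2 (by positivity)
  rw [h3, h4]
  omega

/-- The set of positions of a leaf. -/
def leafSet {Λ : Type} {S : ℕ} : Gate Λ Bool S → Finset Λ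
  | .leaf B _ => B
  | _ => ∅

open Classical in
/-- **The lower bound.** -/
theorem conondet {n k l g s₁ S : ℕ} (M : CostM n) (hn : n ≤ 2 ^ k) (hgl : 3 * g + 6 ≤ l)
    (hln : l + g ≤ n) (hs₁ : 2 ^ (l + 2 * k + 7) ≤ s₁)
    (C : Circ (Fin n → Bool) Bool S) (r : Fin S) (hleaf : C.LeafLE (2 ^ (n - 2 * g - 6)))
    (hno : ∀ f, M.cost f s₁ → ¬C.Acc f r)
    (hfew : (univ.filter fun f : (Fin n → Bool) → Bool => ¬C.Acc f r).card +
      2 ^ (2 ^ (l + g) - 2 ^ (l - g - 2)) ≤ 2 ^ 2 ^ (l + g)) :
    2 ^ 2 ^ (l - 3 * g - 5) ≤ S := by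
  obtain ⟨d, rfl⟩ : ∃ d, n = l + g + d := ⟨n - (l + g), by omega⟩
  by_contra hS
  push Not at hS
  have hS' : S < 2 ^ 2 ^ (l - 2 * g - 3) := by
    refine lt_of_lt_of_le hS (Nat.pow_le_pow_right (by norm_num)
      (Nat.pow_le_pow_right (by norm_num) (by omega)))
  obtain ⟨T, hT⟩ := exists_graph (l := l) (g := g) (d := d) (q := l - 2 * g - 3) (by omega)
    (fun i => leafSet (C.gate i)) (by
      intro i
      cases hG : C.gate i with
      | leaf B φ => exact hleaf _ _ _ hG
      | and i j => exact Nat.zero_le _
      | or i j => exact Nat.zero_le _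
      | dec v ch => exact Nat.zero_le _) hS' (by omega)
  have key := natural (n := l + g) (k := k) (l := l) (s₁ := 2 ^ (l + 2 * k + 5)) (sub M)
    (by omega) (by omega) (by omega) le_rfl
    (restr C (emb T) (kap T) fun v u h => kap_some h) r
    (by
      have e : 2 * l - (l + g) - 3 = l - g - 3 := by omega
      rw [e]
      refine restr_leafLE fun i B φ hG => ?_
      have := hT i
      rw [hG] at this
      exact this)
    (by
      have hinj : Function.Injective (ext (kap T) : ((Fin (l + g) → Bool) → Bool) → _) := by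
        intro f f' hff
        funext u
        have := congrFun hff (emb T u)
        unfold ext at this
        rw [kap_emb] at this
        exact this
      have h1 : (univ.filter fun f : (Fin (l + g) → Bool) → Bool =>
          ¬(restr C (emb T) (kap T) fun v u h => kap_some h).Acc f r).card ≤
          (univ.filter fun f : (Fin (l + g + d) → Bool) → Bool => ¬C.Acc f r).card := by
        refine Finset.card_le_card_of_injOn (ext (kap T)) ?_ (hinj.injOn)
        intro f hf
        rw [Finset.mem_coe, Finset.mem_filter] at hf ⊢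
        refine ⟨Finset.mem_univ _, fun h => hf.2 ?_⟩
        exact restr_acc.2 h
      have h2 := Finset.card_filter_add_card_filter_not
        (s := (univ : Finset ((Fin (l + g) → Bool) → Bool)))
        (fun f => (restr C (emb T) (kap T) fun v u h => kap_some h).Acc f r)
      have hc : (univ : Finset ((Fin (l + g) → Bool) → Bool)).card = 2 ^ 2 ^ (l + g) := by
        rw [Finset.card_univ, Fintype.card_fun, Fintype.card_bool, Fintype.card_fun,
          Fintype.card_bool, Fintype.card_fin]
      rw [hc] at h2
      have h3 : 2 ^ (2 ^ (l + g) - 2 ^ (l - g - 2)) ≤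
          (univ.filter fun f : (Fin (l + g) → Bool) → Bool =>
            (restr C (emb T) (kap T) fun v u h => kap_some h).Acc f r).card := by
        omega
      have e : 2 * l - (l + g) - 2 = l - g - 2 := by omega
      rw [e]
      have h4 : 2 ^ (l - g - 2) ≤ 2 ^ (l + g) := Nat.pow_le_pow_right (by norm_num) (by omega)
      calc 2 ^ 2 ^ (l + g) = 2 ^ 2 ^ (l - g - 2) * 2 ^ (2 ^ (l + g) - 2 ^ (l - g - 2)) := by
            rw [← pow_add]
            congr 1
            omega
        _ ≤ _ := Nat.mul_le_mul_left _ h3)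
    (fun f hf h => hno _ (M.mono (cost_ext (by omega) M T hf) hs₁) (restr_acc.1 h))
  have e : 4 * l - 3 * (l + g) - 5 = l - 3 * g - 5 := by omega
  rw [e] at key
  omega

end Pool.Agent.H561R2.NP
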