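import Pool.Agent.H561R2.NP.Pick
import Pool.Agent.H561R2.RO.Cost

/-!
# The cost of hashed tables with few corrections
-/

namespace Pool.Agent.H561R2.NP

open Finset Pool.Agent.H561R2.RO

/-- Parity of a list of coordinates. -/
def xl {n : ℕ} : List (Fin n) → (Fin n → Bool) → Bool
  | [], _ => false
  | i :: l, x => x i ^^ xl l x

theorem xl_append {n : ℕ} (l₁ l₂ : List (Fin n)) (x : Fin n → Bool) :
    xl (l₁ ++ l₂) x = (xl l₁ x ^^ xl l₂ x) := by
  induction l₁ with
  | nil => simp [xl]
  | cons i l ih => rw [List.cons_append, xl, xl, ih, Bool.xor_assoc]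

theorem xl_map {n : ℕ} (l : List (Fin n)) (x : Fin (n + 1) → Bool) :
    xl (l.map Fin.succ) x = xl l fun i => x i.succ := by
  induction l with
  | nil => rfl
  | cons i l ih => rw [List.map_cons, xl, xl, ih]

theorem par_eq : ∀ {n : ℕ} (a x : Fin n → Bool),
    par a x = xl ((List.finRange n).filter fun j => a j) x := by
  intro n
  induction n with
  | zero => intro a x; rfl
  | succ n ih =>
    intro a x
    have e : (List.map Fin.succ (List.finRange n)).filter (fun j => a j) =
        ((List.finRange n).filter fun j => a j.succ).map Fin.succ := by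
      rw [List.filter_map]
      rfl
    rw [List.finRange_succ, List.filter_cons, e, par, ih]
    by_cases h : a 0 = true
    · rw [if_pos h, xl, xl_map, h, Bool.true_and]
    · rw [if_neg h, xl_map]
      rw [Bool.not_eq_true] at h
      rw [h, Bool.false_and, Bool.false_xor]

variable {n : ℕ} (M : CostM n)

theorem cost_xl : ∀ (k : ℕ) (l : List (Fin n)), l.length ≤ 2 ^ k →
    M.cost (fun z => xl l z) (2 * 4 ^ k - 1) := by
  intro k
  induction k with
  | zero =>
    intro l hl
    match l, hl with
    | [], _ => exact M.mono (M.const false) (by norm_num)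
    | [i], _ =>
      have e : (fun z : Fin n → Bool => xl [i] z) = fun z => z i := by
        funext z
        simp [xl]
      rw [e]
      exact M.mono (M.var i) (by norm_num)
    | _ :: _ :: _, h => simp at h
  | succ k ih =>
    intro l hl
    have h1 := ih (l.take (2 ^ k)) (by rw [List.length_take]; omega)
    have h2 := ih (l.drop (2 ^ k)) (by rw [List.length_drop, pow_succ] at *; omega)
    have e : (fun z : Fin n → Bool => xl l z) =
        fun z => xl (l.take (2 ^ k)) z ^^ xl (l.drop (2 ^ k)) z := by
      funext z
      rw [← xl_append, List.take_append_drop]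
    rw [e]
    refine M.mono (M.xor h1 h2) ?_
    have : 1 ≤ 4 ^ k := Nat.one_le_pow _ _ (by norm_num)
    rw [pow_succ]
    omega

theorem cost_par {k : ℕ} (hn : n ≤ 2 ^ k) (a : Fin n → Bool) :
    M.cost (fun z => par a z) (2 * 4 ^ k - 1) := by
  have e : (fun z : Fin n → Bool => par a z) =
      fun z => xl ((List.finRange n).filter fun j => a j) z := by
    funext z
    exact par_eq a z
  rw [e]
  refine cost_xl M k _ ((List.length_filter_le _ _).trans ?_)
  rw [List.length_finRange]
  exact hn

theorem cost_point (p : Fin n → Bool) : ∀ l : List (Fin n),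
    M.cost (fun z => l.all fun i => z i == p i) (6 * l.length + 1) := by
  intro l
  induction l with
  | nil => exact M.mono (M.const true) (by simp)
  | cons i l ih =>
    cases hp : p i
    · have e : (fun z : Fin n → Bool => (i :: l).all fun i => z i == p i) =
          fun z => if z i then (fun _ => false) z else (fun z => l.all fun i => z i == p i) z := by
        funext z
        rw [List.all_cons, hp]
        cases z i <;> simp
      rw [e]
      exact M.mono (M.ite (M.var i) (M.const false) ih) (by rw [List.length_cons]; omega)
    · have e : (fun z : Fin n → Bool => (i :: l).all fun i => z i == p i) =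
          fun z => if z i then (fun z => l.all fun i => z i == p i) z else (fun _ => false) z := by
        funext z
        rw [List.all_cons, hp]
        cases z i <;> simp
      rw [e]
      exact M.mono (M.ite (M.var i) ih (M.const false)) (by rw [List.length_cons]; omega)

theorem cost_near : ∀ (h c : ℕ) (f y : (Fin n → Bool) → Bool),
    (univ.filter fun v => f v ≠ y v).card ≤ h → M.cost f c →
    M.cost y (c + h * (12 * n + 6)) := by
  intro h
  induction h with
  | zero =>
    intro c f y hc hf
    have e : f = y := by
      funext v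
      by_contra hv
      have : v ∈ univ.filter fun v => f v ≠ y v := Finset.mem_filter.2 ⟨Finset.mem_univ _, hv⟩
      rw [Finset.card_eq_zero.1 (Nat.le_zero.1 hc)] at this
      exact Finset.notMem_empty _ this
    rw [← e]
    exact M.mono hf (by omega)
  | succ h ih =>
    intro c f y hc hf
    by_cases hfy : f = y
    · rw [← hfy]
      exact M.mono hf (by omega)
    · obtain ⟨p, hp⟩ := Function.ne_iff.1 hfy
      have h1 := M.ite (cost_point M p (List.finRange n)) (M.const (y p)) hf
      have hall : ∀ z : Fin n → Bool, ((List.finRange n).all fun i => z i == p i) = true ↔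
          z = p := by
        intro z
        rw [List.all_eq_true]
        constructor
        · intro h
          funext i
          simpa using h i (List.mem_finRange i)
        · rintro rfl i _
          simp
      have h2 := ih (c + (12 * n + 6))
        (fun z => if ((List.finRange n).all fun i => z i == p i) then y p else f z) y ?_
        (M.mono h1 (by rw [List.length_finRange]; omega))
      · refine M.mono h2 (le_of_eq ?_)
        ring
      · have hsub : (univ.filter fun v =>
            (if ((List.finRange n).all fun i => v i == p i) then y p else f v) ≠ y v) ⊆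
            (univ.filter fun v => f v ≠ y v).erase p := by
          intro v hv
          rw [Finset.mem_filter] at hv
          by_cases hvp : v = p
          · subst hvp
            have := hv.2
            rw [if_pos ((hall v).2 rfl)] at this
            exact (this rfl).elim
          · rw [Finset.mem_erase, Finset.mem_filter]
            have := hv.2
            rw [if_neg fun h => hvp ((hall v).1 h)] at this
            exact ⟨hvp, Finset.mem_univ _, this⟩
        have h3 := Finset.card_le_card hsub
        have hmem : p ∈ univ.filter fun v => f v ≠ y v :=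
          Finset.mem_filter.2 ⟨Finset.mem_univ _, hp⟩
        rw [Finset.card_erase_of_mem hmem] at h3
        omega

/-- The cost of hashed tables with few corrections. -/
theorem cost_final {k l : ℕ} (hn : n ≤ 2 ^ k) (a : Fin l → Fin n → Bool)
    (T : (Fin l → Bool) → Bool) (y : (Fin n → Bool) → Bool)
    (hy : (univ.filter fun v => T (hsh a v) ≠ y v).card ≤ 2 ^ l) :
    M.cost y (2 ^ (l + 2 * k + 5)) := by
  have h1 := M.table (fun (i : Fin l) z => par (a i) z) (fun i => cost_par M hn (a i)) T
  have h2 := cost_near M (2 ^ l) _ (fun z => T (hsh a z)) y hy h1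
  refine M.mono h2 ?_
  have h0 : 1 ≤ 4 ^ k := Nat.one_le_pow _ _ (by norm_num)
  have h3 : (2 * (2 * 4 ^ k - 1) + 4) * 2 ^ l ≤ (4 * 4 ^ k + 2) * 2 ^ l :=
    Nat.mul_le_mul_right _ (by omega)
  have h4 : 2 ^ l * (12 * n + 6) ≤ 2 ^ l * (18 * 4 ^ k) := by
    refine Nat.mul_le_mul_left _ ?_
    have h5 : 2 ^ k ≤ 4 ^ k := Nat.pow_le_pow_left (by norm_num) k
    have h6 : 1 ≤ 4 ^ k := Nat.one_le_pow _ _ (by norm_num)
    omega
  have h7 : 2 ^ (l + 2 * k + 5) = 32 * 4 ^ k * 2 ^ l := by
    rw [show (4 : ℕ) = 2 ^ 2 by norm_num, show (32 : ℕ) = 2 ^ 5 by norm_num, ← pow_mul, ← pow_add,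
      ← pow_add]
    congr 1
    ring
  have h8 : (4 * 4 ^ k + 2) * 2 ^ l + 2 ^ l * (18 * 4 ^ k) ≤ 32 * 4 ^ k * 2 ^ l := by
    have h6 : 1 ≤ 4 ^ k := Nat.one_le_pow _ _ (by norm_num)
    have h9 : (4 * 4 ^ k + 2) + 18 * 4 ^ k ≤ 32 * 4 ^ k := by omega
    calc (4 * 4 ^ k + 2) * 2 ^ l + 2 ^ l * (18 * 4 ^ k) =
          ((4 * 4 ^ k + 2) + 18 * 4 ^ k) * 2 ^ l := by ring
      _ ≤ _ := Nat.mul_le_mul_right _ h9
  omega

end Pool.Agent.H561R2.NP
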