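import Pool.Agent.H561R2.RO.Cut

/-!
# Large product sets in the sets accepted by decomposable circuits
-/

namespace Pool.Agent.H561R2.NP

open Finset Pool.Agent.H561R2.RO

variable {Λ : Type} [DecidableEq Λ] {S : ℕ}

/-- The predicate depends only on the positions in `B`. -/
def Dep (P : (Λ → Bool) → Prop) (B : Finset Λ) : Prop :=
  ∀ x y : Λ → Bool, (∀ v ∈ B, x v = y v) → P x → P y

omit [DecidableEq Λ] in
theorem Dep.mono {P : (Λ → Bool) → Prop} {B B' : Finset Λ} (h : Dep P B) (hB : B ⊆ B') :
    Dep P B' := fun x y hxy => h x y fun v hv => hxy v (hB hv)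

/-- A condition which implies that gate `g` has value 1. -/
def piece (C : Circ Λ Bool S) (g : Fin S) (c : Bool) : ((Λ → Bool) → Prop) × Finset Λ :=
  match C.gate g with
  | .leaf B φ => (fun x => φ x = true, B)
  | .and i j => (fun x => C.Acc x i ∧ C.Acc x j, C.scope i ∪ C.scope j)
  | .or i j => if c then (fun x => C.Acc x i, C.scope i) else (fun x => C.Acc x j, C.scope j)
  | .dec v ch => (fun x => x v = c ∧ C.Acc x (ch c), insert v (C.scope (ch c)))

theorem acc_dep (C : Circ Λ Bool S) (g : Fin S) : Dep (fun x => C.Acc x g) (C.scope g) :=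
  fun _ _ hxy h => Circ.Acc.congr h hxy

theorem piece_spec (C : Circ Λ Bool S) (g : Fin S) (c : Bool) :
    Dep (piece C g c).1 (piece C g c).2 ∧ (piece C g c).2 ⊆ C.scope g ∧
      ∀ x, (piece C g c).1 x → C.Acc x g := by
  unfold piece
  cases hG : C.gate g with
  | leaf B φ =>
    obtain ⟨h1, h2⟩ := Circ.ok_leaf hG
    refine ⟨fun x y hxy hx => ?_, h1, fun x hx => .leaf hG hx⟩
    show φ y = true
    rw [← h2 x y hxy]
    exact hx
  | and i j =>
    obtain ⟨-, -, h3, h4, -⟩ := Circ.ok_and hG
    refine ⟨fun x y hxy hx => ⟨?_, ?_⟩, Finset.union_subset h3 h4, fun x hx => .and hG hx.1 hx.2⟩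
    · exact hx.1.congr fun v hv => hxy v (Finset.mem_union_left _ hv)
    · exact hx.2.congr fun v hv => hxy v (Finset.mem_union_right _ hv)
  | or i j =>
    obtain ⟨-, -, h3, h4⟩ := Circ.ok_or hG
    cases c with
    | true => exact ⟨acc_dep C i, h3, fun x hx => .left hG hx⟩
    | false => exact ⟨acc_dep C j, h4, fun x hx => .right hG hx⟩
  | dec v ch =>
    obtain ⟨h1, h2⟩ := Circ.ok_dec hG
    refine ⟨fun x y hxy hx => ⟨?_, ?_⟩, Finset.insert_subset h1 (h2 c).2.1, fun x hx => ?_⟩
    · rw [← hxy v (Finset.mem_insert_self _ _)]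
      exact hx.1
    · exact hx.2.congr fun u hu => hxy u (Finset.mem_insert_of_mem hu)
    · refine .dec hG ?_
      have h3 : x v = c := hx.1
      rw [h3]
      exact hx.2

theorem Circ.Acc.avoid {C : Circ Λ Bool S} {x : Λ → Bool} {g h : Fin S} (hc : C.Acc x g)
    (hne : (C.scope h).Nonempty) (hd : Disjoint (C.scope g) (C.scope h)) :
    (C.cut h).Acc x g := by
  obtain ⟨L, hL⟩ := hc.cert
  exact (hL.avoid hne hd).acc

/-- **One step.** -/
theorem step {C : Circ Λ Bool S} {w : ℕ} (hw : 1 ≤ w) (hleaf : C.LeafLE (2 * w))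
    {x : Λ → Bool} {r : Fin S} (h : C.Acc x r) (hr : 2 * w < (C.scope r).card) :
    ∃ (g : Fin S) (c : Bool), g ≤ r ∧ C.scope g ⊆ C.scope r ∧ 2 * w < (C.scope g).card ∧
      (piece C g c).2.card ≤ 4 * w ∧ (piece C g c).1 x ∧ (C.cut g).Acc x r := by
  induction h with
  | @leaf g B φ h1 h2 =>
    refine ⟨g, true, le_rfl, subset_rfl, hr, ?_, ?_, .leaf (Circ.cut_gate_self C g) rfl⟩
    · unfold piece
      rw [h1]
      have := hleaf _ _ _ h1
      show B.card ≤ 4 * w
      omega
    · unfold piece
      rw [h1]
      exact h2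
  | @and g i j h1 c1 c2 i1 i2 =>
    obtain ⟨o1, o2, o3, o4, o5⟩ := Circ.ok_and h1
    by_cases hi : 2 * w < (C.scope i).card
    · obtain ⟨k, c, a1, a2, a3, a4, a5, a6⟩ := i1 hi
      have hne : (C.scope k).Nonempty := Finset.card_pos.1 (by omega)
      refine ⟨k, c, a1.trans o1.le, a2.trans o3, a3, a4, a5, ?_⟩
      have hgk : g ≠ k := by
        rintro rfl
        exact absurd (lt_of_le_of_lt a1 o1) (lt_irrefl _)
      refine .and (i := i) (j := j) ?_ a6 (Circ.Acc.avoid c2 hne
        (Finset.disjoint_of_subset_right a2 o5.symm))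
      rw [Circ.cut_gate_ne _ hgk, h1]
      rfl
    · by_cases hj : 2 * w < (C.scope j).card
      · obtain ⟨k, c, a1, a2, a3, a4, a5, a6⟩ := i2 hj
        have hne : (C.scope k).Nonempty := Finset.card_pos.1 (by omega)
        refine ⟨k, c, a1.trans o2.le, a2.trans o4, a3, a4, a5, ?_⟩
        have hgk : g ≠ k := by
          rintro rfl
          exact absurd (lt_of_le_of_lt a1 o2) (lt_irrefl _)
        refine .and (i := i) (j := j) ?_ (Circ.Acc.avoid c1 hne
          (Finset.disjoint_of_subset_right a2 o5)) a6
        rw [Circ.cut_gate_ne _ hgk, h1]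
        rfl
      · refine ⟨g, true, le_rfl, subset_rfl, hr, ?_, ?_, .leaf (Circ.cut_gate_self C g) rfl⟩
        · unfold piece
          rw [h1]
          show (C.scope i ∪ C.scope j).card ≤ 4 * w
          have := Finset.card_union_le (C.scope i) (C.scope j)
          omega
        · unfold piece
          rw [h1]
          exact ⟨c1, c2⟩
  | @left g i j h1 c1 i1 =>
    obtain ⟨o1, o2, o3, o4⟩ := Circ.ok_or h1
    by_cases hi : 2 * w < (C.scope i).card
    · obtain ⟨k, c, a1, a2, a3, a4, a5, a6⟩ := i1 hi
      refine ⟨k, c, a1.trans o1.le, a2.trans o3, a3, a4, a5, ?_⟩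
      have hgk : g ≠ k := by
        rintro rfl
        exact absurd (lt_of_le_of_lt a1 o1) (lt_irrefl _)
      refine .left (i := i) (j := j) ?_ a6
      rw [Circ.cut_gate_ne _ hgk, h1]
      rfl
    · refine ⟨g, true, le_rfl, subset_rfl, hr, ?_, ?_, .leaf (Circ.cut_gate_self C g) rfl⟩
      · unfold piece
        rw [h1]
        show (C.scope i).card ≤ 4 * w
        omega
      · unfold piece
        rw [h1]
        exact c1
  | @right g i j h1 c1 i1 =>
    obtain ⟨o1, o2, o3, o4⟩ := Circ.ok_or h1
    by_cases hi : 2 * w < (C.scope j).card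
    · obtain ⟨k, c, a1, a2, a3, a4, a5, a6⟩ := i1 hi
      refine ⟨k, c, a1.trans o2.le, a2.trans o4, a3, a4, a5, ?_⟩
      have hgk : g ≠ k := by
        rintro rfl
        exact absurd (lt_of_le_of_lt a1 o2) (lt_irrefl _)
      refine .right (i := i) (j := j) ?_ a6
      rw [Circ.cut_gate_ne _ hgk, h1]
      rfl
    · refine ⟨g, false, le_rfl, subset_rfl, hr, ?_, ?_, .leaf (Circ.cut_gate_self C g) rfl⟩
      · unfold piece
        rw [h1]
        show (C.scope j).card ≤ 4 * w
        omega
      · unfold piece
        rw [h1]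
        exact c1
  | @dec g v ch h1 c1 i1 =>
    obtain ⟨o1, o2⟩ := Circ.ok_dec h1
    obtain ⟨o3, o4, o5⟩ := o2 (x v)
    by_cases hi : 2 * w < (C.scope (ch (x v))).card
    · obtain ⟨k, c, a1, a2, a3, a4, a5, a6⟩ := i1 hi
      refine ⟨k, c, a1.trans o3.le, a2.trans o4, a3, a4, a5, ?_⟩
      have hgk : g ≠ k := by
        rintro rfl
        exact absurd (lt_of_le_of_lt a1 o3) (lt_irrefl _)
      have hvk : v ∉ C.scope k := fun hv => o5 (a2 hv)
      refine .dec (v := v) (ch := ch) ?_ a6
      rw [Circ.cut_gate_ne _ hgk, h1]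
      simp only [Gate.cut]
      rw [if_neg hvk]
    · refine ⟨g, x v, le_rfl, subset_rfl, hr, ?_, ?_, .leaf (Circ.cut_gate_self C g) rfl⟩
      · unfold piece
        rw [h1]
        show (insert v (C.scope (ch (x v)))).card ≤ 4 * w
        have := Finset.card_insert_le v (C.scope (ch (x v)))
        omega
      · unfold piece
        rw [h1]
        exact ⟨rfl, c1⟩

theorem acc_of_cut {C : Circ Λ Bool S} {x : Λ → Bool} {g r : Fin S} (h1 : C.Acc x g)
    (h2 : (C.cut g).Acc x r) : C.Acc x r := by
  have h := Circ.Acc.glue h1 h2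
  have e : (fun v => if v ∈ C.scope g then x v else x v) = x := by
    funext v
    split_ifs <;> rfl
  rwa [e] at h

variable [Fintype Λ]

open Classical in
/-- Conditions on disjoint sets of positions are independent. -/
theorem indep {P Q : (Λ → Bool) → Prop} {B B' : Finset Λ} (hP : Dep P B) (hQ : Dep Q B')
    (hd : Disjoint B B') :
    (univ.filter fun x : Λ → Bool => P x ∧ Q x).card * Fintype.card (Λ → Bool) =
      (univ.filter fun x : Λ → Bool => P x).card * (univ.filter fun x : Λ → Bool => Q x).card := by
  rw [← Finset.card_univ, ← Finset.card_product, ← Finset.card_product]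
  have hsw : ∀ x y : Λ → Bool, (P fun v => if v ∈ B then x v else y v) ↔ P x := by
    intro x y
    exact ⟨hP _ _ fun v hv => if_pos hv, hP _ _ fun v hv => (if_pos hv).symm⟩
  have hsw' : ∀ x y : Λ → Bool, (Q fun v => if v ∈ B then x v else y v) ↔ Q y := by
    intro x y
    have hn : ∀ v ∈ B', v ∉ B := fun v hv hv' => Finset.disjoint_left.1 hd hv' hv
    exact ⟨hQ _ _ fun v hv => if_neg (hn v hv), hQ _ _ fun v hv => (if_neg (hn v hv)).symm⟩
  have hsw2 : ∀ x y : Λ → Bool, (Q fun v => if v ∈ B then y v else x v) ↔ Q x :=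
    fun x y => hsw' y x
  refine Finset.card_bij' (fun p _ => ((fun v => if v ∈ B then p.1 v else p.2 v),
      fun v => if v ∈ B then p.2 v else p.1 v))
    (fun p _ => ((fun v => if v ∈ B then p.1 v else p.2 v),
      fun v => if v ∈ B then p.2 v else p.1 v)) ?_ ?_ ?_ ?_
  · rintro ⟨x, y⟩ hp
    simp only [Finset.mem_product, Finset.mem_filter, Finset.mem_univ, true_and, and_true] at hp ⊢
    exact ⟨(hsw x y).2 hp.1, (hsw2 x y).2 hp.2⟩
  · rintro ⟨x, y⟩ hp
    simp only [Finset.mem_product, Finset.mem_filter, Finset.mem_univ, true_and, and_true] at hp ⊢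
    exact ⟨(hsw x y).2 hp.1, (hsw' x y).2 hp.2⟩
  · rintro ⟨x, y⟩ -
    refine Prod.ext ?_ ?_
    · funext v
      by_cases hv : v ∈ B <;> simp [hv]
    · funext v
      by_cases hv : v ∈ B <;> simp [hv]
  · rintro ⟨x, y⟩ -
    refine Prod.ext ?_ ?_
    · funext v
      by_cases hv : v ∈ B <;> simp [hv]
    · funext v
      by_cases hv : v ∈ B <;> simp [hv]

open Classical in
/-- **Decomposition.** The accepted set contains a large product set. -/
theorem decomp {w : ℕ} (hw : 1 ≤ w) : ∀ (m : ℕ) (C : Circ Λ Bool S) (r : Fin S),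
    (C.scope r).card ≤ m → C.LeafLE (2 * w) →
    ∃ L : List (((Λ → Bool) → Prop) × Finset Λ),
      (∀ p ∈ L, Dep p.1 p.2 ∧ p.2 ⊆ C.scope r ∧ p.2.card ≤ 4 * w) ∧
      L.Pairwise (fun p q => Disjoint p.2 q.2) ∧
      L.length * (2 * w) ≤ (C.scope r).card + 2 * w ∧
      (∀ x, (∀ p ∈ L, p.1 x) → C.Acc x r) ∧
      (univ.filter fun x : Λ → Bool => C.Acc x r).card ≤
        (2 * S) ^ L.length * (univ.filter fun x : Λ → Bool => ∀ p ∈ L, p.1 x).card := by
  intro m
  induction m with
  | zero =>
    intro C r hm hleaf
    have hS : 0 < S := lt_of_le_of_lt (Nat.zero_le _) r.2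
    refine ⟨[(fun x => C.Acc x r, C.scope r)], ?_, ?_, ?_, ?_, ?_⟩
    · intro p hp
      rw [List.mem_singleton] at hp
      subst hp
      exact ⟨acc_dep C r, subset_rfl, by dsimp only; omega⟩
    · exact List.pairwise_singleton _ _
    · simp
    · intro x hx
      exact hx _ (List.mem_singleton.2 rfl)
    · simp only [List.length_singleton, pow_one, List.mem_singleton, forall_eq]
      exact Nat.le_mul_of_pos_left _ (by omega)
  | succ m ih =>
    intro C r hm hleaf
    have hS : 0 < S := lt_of_le_of_lt (Nat.zero_le _) r.2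
    by_cases hr : (C.scope r).card ≤ 2 * w
    · refine ⟨[(fun x => C.Acc x r, C.scope r)], ?_, ?_, ?_, ?_, ?_⟩
      · intro p hp
        rw [List.mem_singleton] at hp
        subst hp
        exact ⟨acc_dep C r, subset_rfl, by dsimp only; omega⟩
      · exact List.pairwise_singleton _ _
      · simp
      · intro x hx
        exact hx _ (List.mem_singleton.2 rfl)
      · simp only [List.length_singleton, pow_one, List.mem_singleton, forall_eq]
        exact Nat.le_mul_of_pos_left _ (by omega)
    · push Not at hr
      by_cases hne : ∃ x : Λ → Bool, C.Acc x r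
      · obtain ⟨x₀, hx₀⟩ := hne
        set good : Finset (Fin S × Bool) := univ.filter fun gc =>
          C.scope gc.1 ⊆ C.scope r ∧ 2 * w < (C.scope gc.1).card ∧
            (piece C gc.1 gc.2).2.card ≤ 4 * w with hgood
        set F : Fin S × Bool → Finset (Λ → Bool) := fun gc => univ.filter fun x =>
          (piece C gc.1 gc.2).1 x ∧ (C.cut gc.1).Acc x r with hF
        have hcov : (univ.filter fun x : Λ → Bool => C.Acc x r) ⊆ good.biUnion F := by
          intro x hx
          rw [Finset.mem_filter] at hx
          obtain ⟨g, c, a1, a2, a3, a4, a5, a6⟩ := step hw hleaf hx.2 hr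
          rw [Finset.mem_biUnion]
          refine ⟨(g, c), ?_, ?_⟩
          · rw [hgood, Finset.mem_filter]
            exact ⟨Finset.mem_univ _, a2, a3, a4⟩
          · rw [hF, Finset.mem_filter]
            exact ⟨Finset.mem_univ _, a5, a6⟩
        have hgne : good.Nonempty := by
          have : x₀ ∈ good.biUnion F := hcov (Finset.mem_filter.2 ⟨Finset.mem_univ _, hx₀⟩)
          rw [Finset.mem_biUnion] at this
          obtain ⟨gc, h1, -⟩ := this
          exact ⟨gc, h1⟩
        obtain ⟨⟨g, c⟩, hgc, hmax⟩ := Finset.exists_max_image good (fun gc => (F gc).card) hgne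
        have hcard : (univ.filter fun x : Λ → Bool => C.Acc x r).card ≤
            2 * S * (F (g, c)).card := by
          calc (univ.filter fun x : Λ → Bool => C.Acc x r).card ≤ (good.biUnion F).card :=
                Finset.card_le_card hcov
            _ ≤ ∑ gc ∈ good, (F gc).card := Finset.card_biUnion_le
            _ ≤ good.card * (F (g, c)).card := by
                rw [← smul_eq_mul]
                exact Finset.sum_le_card_nsmul _ _ _ hmax
            _ ≤ 2 * S * (F (g, c)).card := by
                refine Nat.mul_le_mul_right _ ?_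
                calc good.card ≤ Fintype.card (Fin S × Bool) := Finset.card_le_univ _
                  _ = 2 * S := by rw [Fintype.card_prod, Fintype.card_fin, Fintype.card_bool]; ring
        rw [hgood, Finset.mem_filter] at hgc
        obtain ⟨-, g1, g2, g3⟩ := hgc
        dsimp only at g1 g2 g3
        obtain ⟨p1, p2, p3⟩ := piece_spec C g c
        have hsd : ((C.cut g).scope r).card + (C.scope g).card = (C.scope r).card :=
          Finset.card_sdiff_add_card_eq_card g1
        obtain ⟨L, l1, l2, l3, l4, l5⟩ := ih (C.cut g) r (by omega) (Circ.cut_leafLE hleaf g)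
        have hsub : (C.cut g).scope r = C.scope r \ C.scope g := rfl
        refine ⟨piece C g c :: L, ?_, ?_, ?_, ?_, ?_⟩
        · intro p hp
          rcases List.mem_cons.1 hp with rfl | hp
          · exact ⟨p1, p2.trans g1, g3⟩
          · obtain ⟨q1, q2, q3⟩ := l1 p hp
            exact ⟨q1, (q2.trans (hsub ▸ Finset.sdiff_subset)), q3⟩
        · refine List.pairwise_cons.2 ⟨?_, l2⟩
          intro p hp
          obtain ⟨q1, q2, q3⟩ := l1 p hp
          rw [hsub] at q2
          exact Finset.disjoint_of_subset_left p2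
            (Finset.disjoint_of_subset_right q2 Finset.disjoint_sdiff)
        · rw [List.length_cons, Nat.succ_mul]
          omega
        · intro x hx
          refine acc_of_cut (p3 x (hx _ (List.mem_cons_self))) (l4 x fun p hp => ?_)
          exact hx p (List.mem_cons_of_mem _ hp)
        · have hT : 0 < Fintype.card (Λ → Bool) := Fintype.card_pos
          have hd1 : Disjoint (piece C g c).2 ((C.cut g).scope r) := by
            rw [hsub]
            exact Finset.disjoint_of_subset_left p2 Finset.disjoint_sdiff
          have i1 := indep p1 (acc_dep (C.cut g) r) hd1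
          have hdepL : Dep (fun x : Λ → Bool => ∀ p ∈ L, p.1 x) ((C.cut g).scope r) := by
            intro x y hxy hx p hp
            exact (l1 p hp).1 x y (fun v hv => hxy v ((l1 p hp).2.1 hv)) (hx p hp)
          have i2 : (univ.filter fun x : Λ → Bool =>
              (piece C g c).1 x ∧ ∀ p ∈ L, p.1 x).card * Fintype.card (Λ → Bool) =
              (univ.filter fun x : Λ → Bool => (piece C g c).1 x).card *
                (univ.filter fun x : Λ → Bool => ∀ p ∈ L, p.1 x).card := by
            convert indep p1 hdepL hd1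
          have e1 : (univ.filter fun x : Λ → Bool => ∀ p ∈ piece C g c :: L, p.1 x) =
              univ.filter fun x : Λ → Bool => (piece C g c).1 x ∧ ∀ p ∈ L, p.1 x := by
            refine Finset.filter_congr fun x _ => ?_
            simp only [List.mem_cons, forall_eq_or_imp]
          have e2 : (F (g, c)).card ≤ (2 * S) ^ L.length *
              (univ.filter fun x : Λ → Bool => (piece C g c).1 x ∧ ∀ p ∈ L, p.1 x).card := by
            refine Nat.le_of_mul_le_mul_right ?_ hT
            calc (F (g, c)).card * Fintype.card (Λ → Bool) =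
                  (univ.filter fun x : Λ → Bool => (piece C g c).1 x).card *
                  (univ.filter fun x : Λ → Bool => (C.cut g).Acc x r).card := i1
              _ ≤ (univ.filter fun x : Λ → Bool => (piece C g c).1 x).card *
                  ((2 * S) ^ L.length *
                    (univ.filter fun x : Λ → Bool => ∀ p ∈ L, p.1 x).card) :=
                  Nat.mul_le_mul_left _ l5
              _ = (2 * S) ^ L.length * ((univ.filter fun x : Λ → Bool =>
                    (piece C g c).1 x).card *
                    (univ.filter fun x : Λ → Bool => ∀ p ∈ L, p.1 x).card) := by ring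
              _ = (2 * S) ^ L.length * ((univ.filter fun x : Λ → Bool =>
                    (piece C g c).1 x ∧ ∀ p ∈ L, p.1 x).card * Fintype.card (Λ → Bool)) :=
                  congrArg ((2 * S) ^ L.length * ·) i2.symm
              _ = _ := by ring
          rw [e1, List.length_cons, pow_succ]
          calc (univ.filter fun x : Λ → Bool => C.Acc x r).card ≤ 2 * S * (F (g, c)).card := hcard
            _ ≤ 2 * S * ((2 * S) ^ L.length * (univ.filter fun x : Λ → Bool =>
                (piece C g c).1 x ∧ ∀ p ∈ L, p.1 x).card) := Nat.mul_le_mul_left _ e2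
            _ = _ := by ring
      · push Not at hne
        refine ⟨[(fun _ => False, ∅)], ?_, ?_, ?_, ?_, ?_⟩
        · intro p hp
          rw [List.mem_singleton] at hp
          subst hp
          exact ⟨fun _ _ _ h => h, Finset.empty_subset _, by simp⟩
        · exact List.pairwise_singleton _ _
        · simp
        · intro x hx
          exact (hx _ (List.mem_singleton.2 rfl)).elim
        · have : (univ.filter fun x : Λ → Bool => C.Acc x r) = ∅ := by
            rw [Finset.filter_eq_empty_iff]
            intro x _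
            exact hne x
          rw [this]
          simp

end Pool.Agent.H561R2.NP
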