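import Pool.Agent.H561R2.NP.Conondet

/-!
# Circuits which reject all easy functions and few hard ones
-/

namespace Pool.Agent.H561R2.NP

open Finset Pool.Agent.H561R2.RO

open Classical in
theorem conondet_gap {n k l g s₁ s₂ S K : ℕ} (M : CostM n) (hn : n ≤ 2 ^ k) (hgl : 3 * g + 6 ≤ l)
    (hln : l + g ≤ n) (hs₁ : 2 ^ (l + 2 * k + 7) ≤ s₁)
    (hK : (univ.filter fun f : (Fin n → Bool) → Bool => M.cost f s₂).card ≤ K)
    (C : Circ (Fin n → Bool) Bool S) (r : Fin S) (hleaf : C.LeafLE (2 ^ (n - 2 * g - 6)))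
    (hno : ∀ f, M.cost f s₁ → ¬C.Acc f r)
    (hfew : {f : (Fin n → Bool) → Bool | ¬M.cost f s₂ ∧ ¬C.Acc f r}.ncard + K +
      2 ^ (2 ^ (l + g) - 2 ^ (l - g - 2)) ≤ 2 ^ 2 ^ (l + g)) :
    2 ^ 2 ^ (l - 3 * g - 5) ≤ S := by
  refine conondet M hn hgl hln hs₁ C r hleaf hno (le_trans (Nat.add_le_add_right ?_ _) hfew)
  have h1 : {f : (Fin n → Bool) → Bool | ¬M.cost f s₂ ∧ ¬C.Acc f r}.ncard =
      (univ.filter fun f : (Fin n → Bool) → Bool => ¬M.cost f s₂ ∧ ¬C.Acc f r).card := by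
    rw [Set.ncard_eq_toFinset_card']
    congr 1
    ext f
    simp
  rw [h1]
  refine le_trans ?_ (Nat.add_le_add_left hK _)
  refine le_trans (Finset.card_le_card ?_) (Finset.card_union_le _ _)
  intro f hf
  rw [Finset.mem_filter] at hf
  rw [Finset.mem_union, Finset.mem_filter, Finset.mem_filter]
  by_cases h : M.cost f s₂
  · exact Or.inr ⟨Finset.mem_univ _, h⟩
  · exact Or.inl ⟨Finset.mem_univ _, h, hf.2⟩

end Pool.Agent.H561R2.NP
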