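import Pool.Agent.H561R2.NP.Blow

/-!
# Hashing
-/

namespace Pool.Agent.H561R2.NP

open Finset

/-- The parity of the common ones. -/
def par : ∀ {n : ℕ}, (Fin n → Bool) → (Fin n → Bool) → Bool
  | 0, _, _ => false
  | _ + 1, a, x => (a 0 && x 0) ^^ par (fun i => a i.succ) (fun i => x i.succ)

theorem par_xor : ∀ {n : ℕ} (a x y : Fin n → Bool),
    par a (fun i => x i ^^ y i) = (par a x ^^ par a y) := by
  intro n
  induction n with
  | zero => intro a x y; rfl
  | succ n ih =>
    intro a x y
    rw [par, par, par, ih]
    cases a 0 <;> cases x 0 <;> cases y 0 <;> cases par (fun i => a i.succ) (fun i => x i.succ) <;>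
      cases par (fun i => a i.succ) (fun i => y i.succ) <;> rfl

theorem par_flip : ∀ {n : ℕ} (a z : Fin n → Bool) (j : Fin n), z j = true →
    par (Function.update a j (!a j)) z = !par a z := by
  intro n
  induction n with
  | zero => intro a z j; exact j.elim0
  | succ n ih =>
    intro a z j
    refine Fin.cases ?_ (fun i => ?_) j
    · intro h
      rw [par, par, h]
      have : (fun i : Fin n => Function.update a 0 (!a 0) i.succ) = fun i => a i.succ := by
        funext i
        rw [Function.update_of_ne (Fin.succ_ne_zero i)]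
      rw [this, Function.update_self]
      cases a 0 <;> cases par (fun i => a i.succ) (fun i => z i.succ) <;> rfl
    · intro h
      rw [par, par]
      have : (fun k : Fin n => Function.update a i.succ (!a i.succ) k.succ) =
          Function.update (fun k => a k.succ) i (!a i.succ) := by
        funext k
        by_cases hk : k = i
        · subst hk
          rw [Function.update_self, Function.update_self]
        · rw [Function.update_of_ne hk, Function.update_of_ne]
          intro h2
          exact hk (Fin.succ_injective _ h2)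
      rw [this, ih (fun k => a k.succ) (fun k => z k.succ) i h,
        Function.update_of_ne (Fin.succ_ne_zero i).symm]
      cases a 0 <;> cases z 0 <;> cases par (fun i => a i.succ) (fun i => z i.succ) <;> rfl

theorem par_count {n : ℕ} {z : Fin n → Bool} (hz : ∃ j, z j = true) :
    (univ.filter fun a => par a z = false).card * 2 = 2 ^ n := by
  obtain ⟨j, hj⟩ := hz
  have h1 : (univ.filter fun a => par a z = false).card =
      (univ.filter fun a => ¬par a z = false).card := by
    refine Finset.card_bij' (fun a _ => Function.update a j (!a j))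
      (fun a _ => Function.update a j (!a j)) ?_ ?_ ?_ ?_
    · intro a ha
      rw [Finset.mem_filter] at ha ⊢
      refine ⟨Finset.mem_univ _, ?_⟩
      rw [par_flip a z j hj, ha.2]
      decide
    · intro a ha
      rw [Finset.mem_filter] at ha ⊢
      refine ⟨Finset.mem_univ _, ?_⟩
      rw [par_flip a z j hj]
      have := ha.2
      cases h : par a z
      · exact (this h).elim
      · rfl
    · intro a _
      simp
    · intro a _
      simp
  have h2 := Finset.card_filter_add_card_filter_not (s := (univ : Finset (Fin n → Bool)))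
    (fun a => par a z = false)
  rw [Finset.card_univ, Fintype.card_fun, Fintype.card_bool, Fintype.card_fin] at h2
  omega

/-- The hash function. -/
def hsh {n l : ℕ} (a : Fin l → Fin n → Bool) (x : Fin n → Bool) : Fin l → Bool :=
  fun i => par (a i) x

theorem hsh_count {n l : ℕ} {x y : Fin n → Bool} (hxy : x ≠ y) :
    (univ.filter fun a : Fin l → Fin n → Bool => hsh a x = hsh a y).card * 2 ^ l =
      Fintype.card (Fin l → Fin n → Bool) := by
  obtain ⟨j, hj⟩ := Function.ne_iff.1 hxy
  have hz : ∃ j, (fun i => x i ^^ y i) j = true := by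
    refine ⟨j, ?_⟩
    show (x j ^^ y j) = true
    revert hj
    cases x j <;> cases y j <;> simp
  have h1 : (univ.filter fun a : Fin l → Fin n → Bool => hsh a x = hsh a y) =
      Fintype.piFinset fun _ => univ.filter fun b => par b (fun i => x i ^^ y i) = false := by
    ext a
    rw [Finset.mem_filter, Fintype.mem_piFinset]
    constructor
    · rintro ⟨-, h⟩ i
      rw [Finset.mem_filter]
      refine ⟨Finset.mem_univ _, ?_⟩
      rw [par_xor]
      have := congrFun h i
      unfold hsh at this
      rw [this]
      exact Bool.xor_self _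
    · intro h
      refine ⟨Finset.mem_univ _, ?_⟩
      funext i
      have := (Finset.mem_filter.1 (h i)).2
      rw [par_xor] at this
      unfold hsh
      revert this
      cases par (a i) x <;> cases par (a i) y <;> simp
  rw [h1, Fintype.card_piFinset_const, ← mul_pow, par_count hz, Fintype.card_fun, Fintype.card_fun,
    Fintype.card_bool, Fintype.card_fin, Fintype.card_fin]

section

variable {Λ β : Type} [DecidableEq Λ] [Fintype Λ] [Nonempty Λ] [DecidableEq β] [Fintype β]

/-- The number of collisions. -/
def coll (f : Λ → β) (B : Finset Λ) : ℕ :=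
  ((B ×ˢ B).filter fun p => p.1 ≠ p.2 ∧ f p.1 = f p.2).card

open Classical in
/-- Random tables. -/
theorem local_hash {P : (Λ → Bool) → Prop} (B : Finset Λ) (hP : ∃ y, P y) (f : Λ → β) :
    ∑ q : (β → Bool) × (Λ → Bool), dst P B (fun x => q.1 (f x)) ≤
      ∑ q : (β → Bool) × (Λ → Bool), (dst P B q.2 + coll f B) := by
  obtain ⟨rep, hrep⟩ : ∃ rep : β → Λ, ∀ x ∈ B, rep (f x) ∈ B ∧ f (rep (f x)) = f x := by
    refine ⟨fun c => Classical.epsilon fun x => x ∈ B ∧ f x = c, fun x hx => ?_⟩
    exact Classical.epsilon_spec (p := fun y => y ∈ B ∧ f y = f x) ⟨x, hx, rfl⟩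
  set Q : β → Prop := fun c => rep c ∈ B ∧ f (rep c) = c with hQ
  set B' : Finset Λ := B.filter fun x => rep (f x) = x with hB'
  set Φ : (β → Bool) × (Λ → Bool) → (β → Bool) × (Λ → Bool) := fun q =>
    (fun c => if Q c then q.2 (rep c) else q.1 c, fun x => if x ∈ B' then q.1 (f x) else q.2 x)
    with hΦ
  have hinv : Function.Involutive Φ := by
    intro q
    refine Prod.ext ?_ ?_
    · funext c
      show (if Q c then (if rep c ∈ B' then q.1 (f (rep c)) else q.2 (rep c))
        else (if Q c then q.2 (rep c) else q.1 c)) = q.1 c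
      by_cases hc : Q c
      · have h1 : rep c ∈ B' := by
          rw [hB', Finset.mem_filter]
          exact ⟨hc.1, by rw [hc.2]⟩
        rw [if_pos hc, if_pos h1, hc.2]
      · rw [if_neg hc, if_neg hc]
    · funext x
      show (if x ∈ B' then (if Q (f x) then q.2 (rep (f x)) else q.1 (f x))
        else (if x ∈ B' then q.1 (f x) else q.2 x)) = q.2 x
      by_cases hx : x ∈ B'
      · have h0 := (Finset.mem_filter.1 hx)
        have h1 : Q (f x) := ⟨by rw [h0.2]; exact h0.1, by rw [h0.2]⟩
        rw [if_pos hx, if_pos h1, h0.2]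
      · rw [if_neg hx, if_neg hx]
  have hsum : ∑ q : (β → Bool) × (Λ → Bool), (dst P B q.2 + coll f B) =
      ∑ q : (β → Bool) × (Λ → Bool), (dst P B (Φ q).2 + coll f B) :=
    (Equiv.sum_comp hinv.toPerm fun q : (β → Bool) × (Λ → Bool) =>
      dst P B q.2 + coll f B).symm
  rw [hsum]
  refine Finset.sum_le_sum fun q _ => ?_
  refine (dst_tri B _ (Φ q).2 hP).trans (Nat.add_le_add_left ?_ _)
  unfold coll
  refine Finset.card_le_card_of_injOn (fun x => (x, rep (f x))) ?_ ?_
  · intro x hx
    rw [Finset.mem_coe, Finset.mem_filter] at hx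
    have h1 := hrep x hx.1
    have h2 : x ∉ B' := by
      intro h3
      refine hx.2 ?_
      show q.1 (f x) = if x ∈ B' then q.1 (f x) else q.2 x
      rw [if_pos h3]
    rw [Finset.mem_coe, Finset.mem_filter, Finset.mem_product]
    refine ⟨⟨hx.1, h1.1⟩, ?_, h1.2.symm⟩
    intro h3
    exact h2 (Finset.mem_filter.2 ⟨hx.1, h3.symm⟩)
  · intro x _ y _ h
    exact (Prod.ext_iff.1 h).1

/-- Random tables. -/
theorem hash_D (f : Λ → β) : ∀ L : List (((Λ → Bool) → Prop) × Finset Λ),
    (∀ p ∈ L, ∃ y, p.1 y) →
    ∑ q : (β → Bool) × (Λ → Bool), D L (fun x => q.1 (f x)) ≤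
      ∑ q : (β → Bool) × (Λ → Bool), (D L q.2 + (L.map fun p => coll f p.2).sum) := by
  intro L
  induction L with
  | nil => intro _; simp [D]
  | cons p L ih =>
    intro hne
    have h1 := ih fun p hp => hne p (List.mem_cons_of_mem _ hp)
    have h2 := local_hash p.2 (hne p List.mem_cons_self) f
    have e : ∀ x, D (p :: L) x = dst p.1 p.2 x + D L x := by
      intro x
      unfold D
      rw [List.map_cons, List.sum_cons]
    simp only [e, List.map_cons, List.sum_cons]
    rw [Finset.sum_add_distrib]
    refine (add_le_add h2 h1).trans (le_of_eq ?_)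
    rw [← Finset.sum_add_distrib]
    refine Finset.sum_congr rfl fun q _ => ?_
    ring

end

end Pool.Agent.H561R2.NP
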