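import Pool.Agent.H561R2.NP.CostN

/-!
# Natural properties and decomposable circuits
-/

namespace Pool.Agent.H561R2.NP

open Finset Pool.Agent.H561R2.RO

open Classical in
/-- **Natural properties.** -/
theorem natural {n k l s₁ S : ℕ} (M : CostM n) (hn : n ≤ 2 ^ k) (hl1 : 3 * n + 5 ≤ 4 * l)
    (hl2 : l ≤ n) (hs₁ : 2 ^ (l + 2 * k + 5) ≤ s₁)
    (C : Circ (Fin n → Bool) Bool S) (r : Fin S) (hleaf : C.LeafLE (2 ^ (2 * l - n - 3)))
    (hlarge : 2 ^ 2 ^ n ≤ 2 ^ 2 ^ (2 * l - n - 2) *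
      (univ.filter fun f : (Fin n → Bool) → Bool => C.Acc f r).card)
    (hno : ∀ f, M.cost f s₁ → ¬C.Acc f r) :
    2 ^ 2 ^ (4 * l - 3 * n - 5) ≤ S := by
  by_contra hS
  push Not at hS
  obtain ⟨q, hq⟩ : ∃ q, 2 * l = n + 4 + q := ⟨2 * l - n - 4, by omega⟩
  have hleaf' : C.LeafLE (2 * 2 ^ q) := by
    have : 2 * 2 ^ q = 2 ^ (2 * l - n - 3) := by
      rw [← pow_succ']
      congr 1
      omega
    rw [this]
    exact hleaf
  obtain ⟨L, l1, l2, l3, l4, l5⟩ := decomp (w := 2 ^ q) Nat.one_le_two_pow _ C r le_rfl hleaf'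
  have hscope : (C.scope r).card ≤ 2 ^ n := by
    refine (Finset.card_le_univ _).trans ?_
    rw [Fintype.card_fun, Fintype.card_bool, Fintype.card_fin]
  -- the number of pieces
  obtain ⟨e, he⟩ : ∃ e, 4 * l = 3 * n + 5 + e := ⟨4 * l - 3 * n - 5, by omega⟩
  obtain ⟨t, ht⟩ : ∃ t, 2 * n + 3 = 2 * l + t := ⟨2 * n + 3 - 2 * l, by omega⟩
  have hlen : L.length ≤ 2 ^ t + 1 := by
    have h1 : L.length * (2 * 2 ^ q) ≤ (2 ^ t + 1) * (2 * 2 ^ q) := by
      refine (l3.trans (Nat.add_le_add_right hscope _)).trans (le_of_eq ?_)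
      rw [add_mul, one_mul, ← pow_succ', ← pow_add]
      congr 2
      omega
    exact Nat.le_of_mul_le_mul_right h1 (by positivity)
  have hSpow : (2 * S) ^ L.length ≤ 2 ^ 2 ^ (2 * l - n) := by
    have h1 : 2 * S ≤ 2 ^ (2 ^ e + 1) := by
      have h2 : 4 * l - 3 * n - 5 = e := by omega
      rw [h2] at hS
      rw [pow_succ]
      omega
    calc (2 * S) ^ L.length ≤ (2 ^ (2 ^ e + 1)) ^ L.length := Nat.pow_le_pow_left h1 _
      _ = 2 ^ ((2 ^ e + 1) * L.length) := by rw [← pow_mul]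
      _ ≤ 2 ^ 2 ^ (2 * l - n) := by
          refine Nat.pow_le_pow_right (by norm_num) ?_
          have h3 : 1 ≤ 2 ^ e := Nat.one_le_two_pow
          have h4 : 1 ≤ 2 ^ t := Nat.one_le_two_pow
          calc (2 ^ e + 1) * L.length ≤ (2 * 2 ^ e) * (2 * 2 ^ t) :=
                Nat.mul_le_mul (by omega) (by omega)
            _ = 2 ^ (2 * l - n) := by
                rw [← pow_succ', ← pow_succ', ← pow_add]
                congr 1
                omega
  set R : Finset ((Fin n → Bool) → Bool) := univ.filter fun x => ∀ p ∈ L, p.1 x with hR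
  have hRbig : 2 ^ 2 ^ n ≤ 2 ^ (5 * 2 ^ (2 * l - n - 2)) * R.card := by
    calc 2 ^ 2 ^ n ≤ 2 ^ 2 ^ (2 * l - n - 2) *
          (univ.filter fun f : (Fin n → Bool) → Bool => C.Acc f r).card := hlarge
      _ ≤ 2 ^ 2 ^ (2 * l - n - 2) * (2 ^ 2 ^ (2 * l - n) * R.card) := by
          refine Nat.mul_le_mul_left _ (l5.trans ?_)
          exact Nat.mul_le_mul_right _ hSpow
      _ = 2 ^ (5 * 2 ^ (2 * l - n - 2)) * R.card := by
          rw [← mul_assoc, ← pow_add]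
          congr 2
          have : 2 * l - n = 2 * l - n - 2 + 2 := by omega
          rw [this, pow_add]
          simp only [Nat.add_sub_cancel]
          ring
  have hRne : R.Nonempty := by
    rw [← Finset.card_pos]
    by_contra h
    have h0 : R.card = 0 := by omega
    rw [h0, mul_zero] at hRbig
    have : 0 < 2 ^ 2 ^ n := by positivity
    omega
  obtain ⟨x₀, hx₀⟩ := hRne
  rw [hR, Finset.mem_filter] at hx₀
  have hne : ∀ p ∈ L, ∃ y, p.1 y := fun p hp => ⟨x₀, hx₀.2 p hp⟩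
  -- real numbers
  have hcardΛ : Fintype.card (Fin n → Bool) = 2 ^ n := by
    rw [Fintype.card_fun, Fintype.card_bool, Fintype.card_fin]
  have hcardF : Fintype.card ((Fin n → Bool) → Bool) = 2 ^ 2 ^ n := by
    rw [Fintype.card_fun, Fintype.card_bool, hcardΛ]
  obtain ⟨Δ, hΔ⟩ : ∃ Δ : ℝ, Δ = Real.log 2 * (5 * 2 ^ (2 * l - n - 2) : ℕ) := ⟨_, rfl⟩
  have hexp : Real.exp Δ = 2 ^ (5 * 2 ^ (2 * l - n - 2)) := by
    rw [hΔ, Real.exp_mul, Real.exp_log (by norm_num), Real.rpow_natCast]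
  have hlampos : (0 : ℝ) < 2 * 2 ^ l / 2 ^ n := by positivity
  have hmean := mean_le (fun x => (D L x : ℝ)) (fun x y => by exact_mod_cast D_lip l2 hne x y) R
    (fun x hx => by
      rw [hR, Finset.mem_filter] at hx
      rw [D_zero hx.2]
      simp) (Δ := Δ) hlampos (by
      rw [hexp, hcardΛ, mul_comm]
      exact_mod_cast hRbig)
  rw [hcardΛ] at hmean
  have hpow : (2 : ℝ) ^ (2 * l - n - 2) * 2 ^ n = 2 ^ l * 2 ^ l / 4 := by
    rw [eq_div_iff (by norm_num), show (4 : ℝ) = 2 ^ 2 by norm_num, ← pow_add, ← pow_add, ← pow_add]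
    congr 1
    omega
  obtain ⟨E, hE⟩ : ∃ E : ℝ, E = 2 * 2 ^ l / 2 ^ n * ((2 ^ n : ℕ) : ℝ) / 8 +
    Δ / (2 * 2 ^ l / 2 ^ n) := ⟨_, rfl⟩
  have hEle : E ≤ 0.25 * 2 ^ l + 0.625 * 0.6931471808 * 2 ^ l := by
    have h1 : 2 * 2 ^ l / 2 ^ n * ((2 ^ n : ℕ) : ℝ) / 8 = (0.25 : ℝ) * 2 ^ l := by
      push_cast
      field_simp
      ring
    have h2 : Δ / (2 * 2 ^ l / 2 ^ n) = 0.625 * Real.log 2 * 2 ^ l := by
      rw [div_eq_iff hlampos.ne', hΔ]
      push_cast
      have h3 : (2 : ℝ) ^ (2 * l - n - 2) = 2 ^ l * 2 ^ l / 4 / 2 ^ n := by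
        rw [eq_div_iff (by positivity)]
        exact hpow
      rw [h3]
      ring
    rw [hE, h1, h2]
    have h4 := Real.log_two_lt_d9
    have h5 : (0 : ℝ) < 2 ^ l := by positivity
    nlinarith
  have hcoll : ((4 * 2 ^ q : ℕ) : ℝ) * 2 ^ n / 2 ^ l = 0.25 * 2 ^ l := by
    rw [div_eq_iff (by positivity)]
    push_cast
    have h1 : (4 : ℝ) * 2 ^ q * 2 ^ n * 4 = 2 ^ l * 2 ^ l := by
      rw [show (4 : ℝ) = 2 ^ 2 by norm_num, ← pow_add, ← pow_add, ← pow_add, ← pow_add]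
      congr 1
      omega
    linarith
  obtain ⟨a, T, hT⟩ := exists_table (l := l) (w := 4 * 2 ^ q) (H := 2 ^ l) (L := L) (E := E)
    l2 hne (fun p hp => (l1 p hp).2.2) (by
      rw [hcardF, hE]
      push_cast
      push_cast at hmean
      exact hmean) (by
      rw [hcoll]
      push_cast
      have h5 : (0 : ℝ) < 2 ^ l := by positivity
      linarith)
  obtain ⟨y, hy1, hy2⟩ := exists_near l2 (fun p hp => (l1 p hp).1) hne fun x => T (hsh a x)
  exact hno y (M.mono (cost_final M hn a T y (hy2.trans hT)) hs₁) (l4 y hy1)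

end Pool.Agent.H561R2.NP
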