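import Pool.Agent.H561R2.NP.Hash

/-!
# Choosing the hash function and the table
-/

namespace Pool.Agent.H561R2.NP

open Finset

theorem coll_sum {n l : ℕ} (B : Finset (Fin n → Bool)) :
    (∑ a : Fin l → Fin n → Bool, coll (hsh a) B) * 2 ^ l ≤
      Fintype.card (Fin l → Fin n → Bool) * (B.card * B.card) := by
  have h1 : ∀ a : Fin l → Fin n → Bool, coll (hsh a) B =
      ∑ p ∈ B ×ˢ B, if p.1 ≠ p.2 ∧ hsh a p.1 = hsh a p.2 then 1 else 0 := by
    intro a
    unfold coll
    rw [Finset.card_filter]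
  simp only [h1]
  rw [Finset.sum_comm, Finset.sum_mul]
  calc ∑ p ∈ B ×ˢ B, (∑ a : Fin l → Fin n → Bool,
        if p.1 ≠ p.2 ∧ hsh a p.1 = hsh a p.2 then 1 else 0) * 2 ^ l
      ≤ ∑ p ∈ B ×ˢ B, Fintype.card (Fin l → Fin n → Bool) := by
        refine Finset.sum_le_sum fun p _ => ?_
        by_cases hp : p.1 = p.2
        · rw [Finset.sum_eq_zero fun a _ => if_neg fun h => h.1 hp]
          simp
        · rw [← hsh_count (l := l) hp, Finset.card_filter]
          refine le_of_eq ?_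
          congr 1
          refine Finset.sum_congr rfl fun a _ => ?_
          by_cases ha : hsh a p.1 = hsh a p.2
          · rw [if_pos ⟨hp, ha⟩, if_pos ha]
          · rw [if_neg fun h => ha h.2, if_neg ha]
    _ = _ := by
        rw [Finset.sum_const, Finset.card_product, smul_eq_mul]
        ring

theorem coll_list {n l w : ℕ} : ∀ L : List (((((Fin n → Bool) → Bool)) → Prop) ×
      Finset (Fin n → Bool)), (∀ p ∈ L, p.2.card ≤ w) →
    (∑ a : Fin l → Fin n → Bool, (L.map fun p => coll (hsh a) p.2).sum) * 2 ^ l ≤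
      Fintype.card (Fin l → Fin n → Bool) * (w * (L.map fun p => p.2.card).sum) := by
  intro L
  induction L with
  | nil => intro _; simp
  | cons p L ih =>
    intro hL
    have h1 := ih fun q hq => hL q (List.mem_cons_of_mem _ hq)
    have h2 := coll_sum (l := l) p.2
    have h3 : p.2.card * p.2.card ≤ w * p.2.card :=
      Nat.mul_le_mul_right _ (hL p List.mem_cons_self)
    simp only [List.map_cons, List.sum_cons]
    rw [Finset.sum_add_distrib, add_mul, Nat.mul_add, Nat.mul_add]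
    exact add_le_add (h2.trans (Nat.mul_le_mul_left _ h3)) h1

/-- A table which is close to the product set. -/
theorem exists_table {n l w H : ℕ}
    {L : List ((((Fin n → Bool) → Bool) → Prop) × Finset (Fin n → Bool))}
    (hL : L.Pairwise (fun p q => Disjoint p.2 q.2)) (hne : ∀ p ∈ L, ∃ y, p.1 y)
    (hw : ∀ p ∈ L, p.2.card ≤ w) {E : ℝ}
    (hE : ∑ u : (Fin n → Bool) → Bool, (D L u : ℝ) ≤
      Fintype.card ((Fin n → Bool) → Bool) * E)
    (hH : E + w * 2 ^ n / 2 ^ l < H + 1) :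
    ∃ (a : Fin l → Fin n → Bool) (T : (Fin l → Bool) → Bool),
      D L (fun x => T (hsh a x)) ≤ H := by
  by_contra hcon
  push Not at hcon
  have hsz : (L.map fun p => p.2.card).sum ≤ 2 ^ n := by
    have := sum_card_le (fun _ => True) L hL univ (fun p _ => Finset.subset_univ _)
    simpa using this
  have h1 : ∀ a : Fin l → Fin n → Bool,
      ∑ q : ((Fin l → Bool) → Bool) × ((Fin n → Bool) → Bool), (H + 1) ≤
      ∑ q : ((Fin l → Bool) → Bool) × ((Fin n → Bool) → Bool),
        (D L q.2 + (L.map fun p => coll (hsh a) p.2).sum) := by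
    intro a
    refine le_trans ?_ (hash_D (hsh a) L hne)
    exact Finset.sum_le_sum fun q _ => hcon a q.1
  have h2 := Finset.sum_le_sum (s := (univ : Finset (Fin l → Fin n → Bool))) fun a _ => h1 a
  have h3 := coll_list (l := l) L hw
  obtain ⟨A, hA⟩ : ∃ A, A = Fintype.card (Fin l → Fin n → Bool) := ⟨_, rfl⟩
  obtain ⟨T, hT⟩ : ∃ T, T = Fintype.card ((Fin l → Bool) → Bool) := ⟨_, rfl⟩
  obtain ⟨U, hU⟩ : ∃ U, U = Fintype.card ((Fin n → Bool) → Bool) := ⟨_, rfl⟩
  obtain ⟨K, hK⟩ : ∃ K, K = ∑ a : Fin l → Fin n → Bool,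
    (L.map fun p => coll (hsh a) p.2).sum := ⟨_, rfl⟩
  obtain ⟨Z, hZ⟩ : ∃ Z, Z = ∑ u : (Fin n → Bool) → Bool, D L u := ⟨_, rfl⟩
  have hApos : 0 < A := by rw [hA]; exact Fintype.card_pos
  have hTpos : 0 < T := by rw [hT]; exact Fintype.card_pos
  have hUpos : 0 < U := by rw [hU]; exact Fintype.card_pos
  simp only [Finset.sum_add_distrib, Finset.sum_const, Finset.card_univ, Fintype.card_prod,
    smul_eq_mul, Fintype.sum_prod_type] at h2
  rw [← Finset.mul_sum, ← hK, ← hA, ← hT, ← hU, ← hZ] at h2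
  rw [← hK, ← hA] at h3
  have hE' : (Z : ℝ) ≤ U * E := by
    rw [hZ, hU]
    push_cast
    exact hE
  have h3' : K * 2 ^ l ≤ A * (w * 2 ^ n) :=
    h3.trans (Nat.mul_le_mul_left _ (Nat.mul_le_mul_left _ hsz))
  have h3r : (K : ℝ) ≤ A * (w * 2 ^ n / 2 ^ l) := by
    have h4 : (K : ℝ) * 2 ^ l ≤ A * (w * 2 ^ n) := by exact_mod_cast h3'
    rw [mul_div_assoc', le_div_iff₀ (by positivity)]
    exact h4
  have h2' : A * (T * U * (H + 1)) ≤ A * (T * Z) + T * U * K := by
    refine le_trans (le_of_eq ?_) h2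
    ring
  have h2r : (A : ℝ) * (T * U * (H + 1)) ≤ A * (T * Z) + T * U * K := by
    exact_mod_cast h2'
  have hAr : (0 : ℝ) < A := by exact_mod_cast hApos
  have hTr : (0 : ℝ) < T := by exact_mod_cast hTpos
  have hUr : (0 : ℝ) < U := by exact_mod_cast hUpos
  have h5 : (A : ℝ) * (T * Z) ≤ A * T * U * E := by
    calc (A : ℝ) * (T * Z) ≤ A * (T * (U * E)) := by gcongr
      _ = _ := by ring
  have h6 : (T : ℝ) * U * K ≤ A * T * U * (w * 2 ^ n / 2 ^ l) := by
    calc (T : ℝ) * U * K ≤ T * U * (A * (w * 2 ^ n / 2 ^ l)) := by gcongr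
      _ = _ := by ring
  have h7 : (A : ℝ) * T * U * (E + w * 2 ^ n / 2 ^ l) < A * T * U * (H + 1) :=
    mul_lt_mul_of_pos_left hH (by positivity)
  have h8 : (A : ℝ) * (T * U * (H + 1)) = A * T * U * (H + 1) := by ring
  rw [mul_add] at h7
  linarith

end Pool.Agent.H561R2.NP
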